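import Pool.Agent.Y190.SC.Fin
import Pool.Agent.Y618.SC.An

/-!
The generalized Green-Griffiths-Lang conjecture for the varieties over the space of polynomials with
high total ramification.
-/

set_option autoImplicit false

open MvPolynomial Metric Filter Topology

namespace Pool.Agent.Y190.SC

open Pool.Agent.W602.Cov Pool.Agent.W602.Cov.Cover Pool.Agent.W602.Cov.R Pool.Agent.W603.BP
open Pool.Agent.W601.PH Pool.Agent.W602.GT Pool.Agent.Y216 Pool.Agent.Y216.LG
open Pool.Agent.TH152.HY hiding aeval_inr main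
open Pool.Agent.Y191 (SemiAbelianOff semi_of_brody lf)

variable {N n q : ℕ}

/-- a complex point outside a proper closed subset -/
theorem exists_pt {X D : BiSet N n} {K : Type} [Field K] [Algebra ℂ K] {x : Fin (N + 1) → K}
    {y : Fin (n + 1) → K} (hK : X.FunctionField K x y) (hD : ¬ D.Mem x y) {G : BiPoly N n}
    {E0 E : ℕ} (hG : BiHom G E0 E) (hne : aeval (Sum.elim x y) G ≠ 0) :
    ∃ u v, QMem X D u v ∧ eval (Sum.elim u v) G ≠ 0 := by
  have h1 : ∃ F ∈ D.eqs, aeval (Sum.elim x y) F ≠ 0 := by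
    by_contra hcon
    push Not at hcon
    exact hD ⟨hK.mem.1, hK.mem.2.1, hcon⟩
  obtain ⟨F, hF, hFab⟩ := h1
  obtain ⟨e, e', he⟩ := D.hom F hF
  have h2 : BiHom (F * G : BiPoly N n) (e + E0) (e' + E) := by
    have := IsWeightedHomogeneous.mul he hG
    exact this
  by_contra hcon
  push Not at hcon
  have h3 := (hK.van _ _ _ h2).2 (fun u v huv => by
    rw [map_mul]
    by_cases hFv : eval (Sum.elim u v) F = 0
    · rw [hFv, zero_mul]
    · rw [hcon u v ⟨huv, fun hd => hFv (hd.2.2 F hF)⟩, mul_zero])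
  rw [map_mul] at h3
  exact mul_ne_zero hFab hne h3

/-- **The result.** -/
theorem final {a : Fin q → ℂ} (ha : Function.Injective a) {M : ℕ} {c : Fin q → ℕ}
    (hbound : n * ∑ i, c i + 2 * n * M < q * M) {X D : BiSet N n} (hR : RamifiedSum X D a M c)
    {K : Type} [Field K] [Algebra ℂ K] {x : Fin (N + 1) → K} {y : Fin (n + 1) → K} {t : ℕ}
    (hK : X.FunctionField K x y) (hD : ¬ D.Mem x y)
    (halg : Algebra.IsAlgebraic
      (IntermediateField.adjoin ℂ {f : K | ∃ i j, y j ≠ 0 ∧ f = y i / y j}) K)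
    (ht : Algebra.trdeg ℂ K = t) (ht1 : 1 ≤ t)
    (h0 : ∀ i, lf (fun l : Fin (n + 1) => a i ^ (l : ℕ)) y ≠ 0) :
    ∃ (G : BiPoly N n) (E : ℕ), BiHom G 0 E ∧
      (∃ u v, QMem X D u v ∧ eval (Sum.elim u v) G ≠ 0) ∧
      LogGeneralType ℂ K t (CentreIn D x y) ∧
      PicardOff X D G ∧ BrodyOff X D G ∧ SemiAbelianOff X D G ∧ LangOff X D G ∧
      (FiniteOver X → G = hyp N n a) := by
  by_cases hfin : FiniteOver X
  · obtain ⟨h1, h2, h3, h4⟩ := main_fin Pool.Agent.Y618.SA.s_an ha hbound hR hfin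
    have hh : (∏ i : Fin q, lfP n (a i)).IsHomogeneous (∑ _i : Fin q, 1) :=
      IsHomogeneous.prod _ _ _ fun i _ => hom_lfP n (a i)
    have hG : BiHom (hyp N n a) 0 (∑ _i : Fin q, 1) := biHom_rename hh
    have hne : aeval (Sum.elim x y) (hyp N n a) ≠ 0 := by
      rw [aeval_hyp]
      exact Finset.prod_ne_zero_iff.2 fun i _ => h0 i
    exact ⟨hyp N n a, _, hG, exists_pt hK hD hG hne,
      h4 K x y t hK.mem hD hne hK.gen ht ht1, h1, h2, h3, h4, fun _ => rfl⟩
  · obtain ⟨G, E, hG, hne, hex, h1, h2, h3, h4⟩ :=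
      main_sum Pool.Agent.Y618.SA.s_an ha hbound hR hK hD halg h0
    exact ⟨G, E, hG, hex, h4 K x y t hK.mem hD hne hK.gen ht ht1, h1, h2, h3, h4,
      fun h => absurd h hfin⟩

end Pool.Agent.Y190.SC
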