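import Pool.Agent.Y190.SC.Frm

/-!
Function fields over the space of binary forms with a condition on the sums of the contact orders
are of log general type.
-/

set_option autoImplicit false

open FF Pool.Agent.W603.LV Pool.Agent.W602.GT Polynomial

namespace Pool.Agent.Y190.SC

open Pool.Agent.Y190.BV

variable {k K L : Type} [Field k] [Field K] [Field L] [Algebra k K] [Algebra k L] [Algebra K L]
  [IsScalarTower k K L]

variable {κ ι : Type} [Fintype κ] [Fintype ι] {w q : ℕ}

variable [FiniteDimensional K L] [IsGalois K L]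

/-- The forms are regular or logarithmic at `P`. -/
theorem Fam.reg_phi [CharZero k] (T : Fam K L κ ι w) {P : Place k K} {b : Bool}
    (D : Fin w → Derivation k K K) (hD : ∀ i, DKind b P (D i))
    (a : Fin q → k) (ha : Function.Injective a) {M : ℕ} {c : Fin q → ℕ}
    (h0 : ∀ x i, (T.p x).eval (algebraMap k K (a i)) ≠ 0)
    (hram : b = true → SumC M c a T.H P)
    (hbound : ∀ x, Fintype.card ι * ∑ i, c i + 2 * (T.p x).natDegree * M < q * M)
    (ψ : K) (hψ : ψ = 1 ∨ ∃ (l : ι) (j : Fin w) (y : k),
      ψ = Algebra.norm K (T.J l j - algebraMap k L y)) :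
    P.Reg (T.phi M c a ψ D) := by
  classical
  have hinf : Infinite k := inferInstance
  obtain ⟨S, T', _, hT, hsum⟩ := exists_places_over (K' := L) P
  have hSne : S.Nonempty := by
    by_contra hcon
    rw [Finset.not_nonempty_iff_eq_empty] at hcon
    rw [hcon, Finset.sum_empty] at hsum
    have : 0 < Module.finrank K L := Module.finrank_pos
    omega
  obtain ⟨W, hW⟩ := hSne
  obtain ⟨e, hWP, _⟩ := hT W hW
  rw [← hWP.reg]
  have hnn : ∀ x ∈ (Finset.univ : Finset κ),
      0 ≤ ((T.e x * (T.p x).natDegree : ℕ) : ℤ) * SS K W (T.base x) :=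
    fun x _ => mul_nonneg (Int.natCast_nonneg _) (SS_nonneg W _)
  refine T.ge_phi hWP D hD a ha h0 hram hbound ψ ?_
  rcases hψ with rfl | ⟨l, j, y, rfl⟩
  · rw [map_one]
    have := Finset.sum_nonneg hnn
    exact Ge.one.mono (by omega)
  · have h1 : Ge W (∑ s : L ≃ₐ[K] L, - tau (W.comp (rs (k := k) s)) (T.J l j))
        (algebraMap K L (Algebra.norm K (T.J l j - algebraMap k L y))) :=
      ge_norm _ fun s => ge_sub_const _ (T.J l j) y
    refine h1.mono ?_
    rw [Finset.sum_neg_distrib]
    have h2 : ∑ s : L ≃ₐ[K] L, tau (W.comp (rs (k := k) s)) (T.J l j) =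
        SS K W (T.base (T.c l j)) := by
      rw [← T.SS_eq W (T.root l j)]
      rfl
    rw [h2]
    have h3 := Finset.single_le_sum hnn (Finset.mem_univ (T.c l j))
    have h4 : (1 : ℤ) ≤ ((T.e (T.c l j) * (T.p (T.c l j)).natDegree : ℕ) : ℤ) := by
      exact_mod_cast Nat.mul_pos (T.pos _) (T.irr _).natDegree_pos
    have h5 := SS_nonneg (K := K) W (T.base (T.c l j))
    have h6 : SS K W (T.base (T.c l j)) ≤
        ((T.e (T.c l j) * (T.p (T.c l j)).natDegree : ℕ) : ℤ) * SS K W (T.base (T.c l j)) :=
      le_mul_of_one_le_left h5 h4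
    linarith

/-- **Log general type.** -/
theorem Fam.gt [IsAlgClosed k] [CharZero k] (T : Fam K L κ ι w) (htr : Algebra.trdeg k K = w)
    [Nonempty ι] (hJb : ∀ l, IsTranscendenceBasis k (T.J l))
    (a : Fin q → k) (ha : Function.Injective a) {M : ℕ} {c : Fin q → ℕ} (hM : 0 < M)
    (h0 : ∀ x i, (T.p x).eval (algebraMap k K (a i)) ≠ 0)
    (hbound : ∀ x, Fintype.card ι * ∑ i, c i + 2 * (T.p x).natDegree * M < q * M)
    (Bd : Place k K → Prop)
    (hram : ∀ P : Place k K, Divisorial w P → ¬ Bd P → SumC M c a T.H P) :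
    LogGeneralType k K w Bd := by
  classical
  have hchK : CharZero K := charZero_of_injective_algebraMap (algebraMap k K).injective
  have hinf : Infinite k := inferInstance
  -- the norms
  let ee := Fintype.equivFin (ι × Fin w)
  let r : Fin (Fintype.card (ι × Fin w)) → L := fun i => T.J (ee.symm i).1 (ee.symm i).2
  obtain ⟨l0⟩ := (inferInstance : Nonempty ι)
  have hS : Algebra.IsAlgebraic (Algebra.adjoin k (Set.range r)) L := by
    have hle : Algebra.adjoin k (Set.range (T.J l0)) ≤ Algebra.adjoin k (Set.range r) := by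
      apply Algebra.adjoin_mono
      rintro _ ⟨j, rfl⟩
      refine ⟨ee (l0, j), ?_⟩
      simp only [r, Equiv.symm_apply_apply]
    have h1 : Algebra.IsAlgebraic (Algebra.adjoin k (Set.range (T.J l0))) L :=
      (hJb l0).isAlgebraic
    let _ : Algebra (Algebra.adjoin k (Set.range (T.J l0))) (Algebra.adjoin k (Set.range r)) :=
      (Subalgebra.inclusion hle).toRingHom.toAlgebra
    have : IsScalarTower (Algebra.adjoin k (Set.range (T.J l0)))
        (Algebra.adjoin k (Set.range r)) L :=
      IsScalarTower.of_algebraMap_eq fun x => rfl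
    exact Algebra.IsAlgebraic.extendScalars (R := Algebra.adjoin k (Set.range (T.J l0)))
      (Subalgebra.inclusion_injective hle)
  obtain ⟨ii, yy, hbas⟩ := exists_norm_basis (K := K) htr r hS
  set x : Fin w → K := fun j => Algebra.norm K (r (ii j) - algebraMap k L (yy j)) with hx
  let ψ : Fin (w + 1) → K := Fin.cases 1 x
  have hψ : ∀ j, ψ j = 1 ∨ ∃ (l : ι) (j' : Fin w) (y : k),
      ψ j = Algebra.norm K (T.J l j' - algebraMap k L y) := by
    intro j
    refine Fin.cases ?_ (fun j => ?_) j
    · exact Or.inl rfl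
    · exact Or.inr ⟨_, _, yy j, rfl⟩
  let ω : Fin (w + 1) → (Fin w → Derivation k K K) → K := fun j => T.phi M c a (ψ j)
  have hJa : ∀ l j i, T.J l j ≠ algebraMap k L (a i) := by
    intro l j i h
    have h1 := T.root l j
    rw [h, IsScalarTower.algebraMap_apply k K L, aeval_algebraMap_apply, map_eq_zero,
      coe_aeval_eq_eval] at h1
    exact h0 _ i h1
  refine ⟨htr, M * (Fintype.card ι * Module.finrank K L), ?_, ω, ?_, ?_, ?_, ?_⟩
  · exact Nat.mul_pos hM (Nat.mul_pos Fintype.card_pos Module.finrank_pos)
  · intro j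
    exact T.phi_pluri _ _ _ _
  · intro P _ j D hD
    exact T.reg_phi (b := false) D hD a ha h0 (fun h => absurd h (by simp)) hbound (ψ j) (hψ j)
  · intro P hP hBd j D hD
    exact T.reg_phi (b := true) D hD a ha h0 (fun _ => hram P hP hBd) hbound (ψ j) (hψ j)
  · -- vector fields on which the forms do not vanish
    have hD : ∀ i : Fin w, ∃ D : Derivation k K K, ∀ j, D (x j) = if i = j then 1 else 0 :=
      fun i => exists_der x hbas (fun j => if i = j then 1 else 0)
    choose D hD using hD
    have hE : ∀ i, ∃ E : Derivation k L L, ∀ x : K, E (algebraMap K L x) =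
        algebraMap K L (D i x) := fun i => exists_ext (D i)
    choose E hE using hE
    have hdet : ∀ l, (Matrix.of fun i j => E i (T.J l j)).det ≠ 0 := by
      intro l hl
      obtain ⟨v, hv0, hv⟩ := Matrix.exists_vecMul_eq_zero_iff.2 hl
      have h1 : (∑ i, v i • E i : Derivation k L L) = 0 := by
        apply der_ext (T.J l) (hJb l)
        intro j
        rw [sum_smul_der]
        have := congrFun hv j
        exact this
      apply hv0
      funext j
      have h2 : (∑ i, v i • E i : Derivation k L L) (algebraMap K L (x j)) = v j := by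
        rw [sum_smul_der, Finset.sum_eq_single j]
        · rw [hE, hD, if_pos rfl, map_one, mul_one]
        · intro i _ hij
          rw [hE, hD, if_neg hij, map_zero, mul_zero]
        · intro h
          exact absurd (Finset.mem_univ j) h
      rw [h1] at h2
      exact h2.symm
    have hder : ∀ (F : K[X]) i (t : L), Polynomial.aeval t F = 0 →
        ev L (F.natDegree + 1) (fun j => D i (F.coeff j)) t =
          (- Polynomial.aeval t (Polynomial.derivative F)) * E i t := by
      intro F i t ht
      have h1 := der_ev (hE i) (F.natDegree + 1) F.coeff t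
      rw [ev_eq_aeval, ht, map_zero] at h1
      have h2 : (∑ j ∈ Finset.range (F.natDegree + 1), algebraMap K L (F.coeff j) *
          ((j : L) * t ^ (j - 1))) = Polynomial.aeval t (Polynomial.derivative F) := by
        exact sum_derivative F t
      rw [h2] at h1
      linear_combination -h1
    have hphi : ω 0 D ≠ 0 := by
      change T.phi M c a 1 D ≠ 0
      unfold Fam.phi
      have hden : T.den M a ≠ 0 := by
        unfold Fam.den
        exact Finset.prod_ne_zero_iff.2 fun l _ =>
          Finset.prod_ne_zero_iff.2 fun j _ => Finset.prod_ne_zero_iff.2 fun i _ =>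
            pow_ne_zero _ (norm_ne (sub_ne_zero.2 (hJa l j i)))
      have hHe : ∀ i, T.H.eval (algebraMap k K (a i)) ≠ 0 := fun i => T.H_eval fun x => h0 x i
      refine mul_ne_zero (mul_ne_zero (div_ne_zero one_ne_zero hden) (pow_ne_zero _
        (Finset.prod_ne_zero_iff.2 fun i _ => pow_ne_zero _ (hHe i)))) (pow_ne_zero _
        (Finset.prod_ne_zero_iff.2 fun l _ => norm_ne ?_))
      have h1 : T.mat l D = Matrix.of fun i j =>
          (fun j => - Polynomial.aeval (T.J l j) (Polynomial.derivative (T.p (T.c l j)))) j *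
            (Matrix.of fun i j => E i (T.J l j)) i j := by
        ext i j
        exact hder (T.p (T.c l j)) i (T.J l j) (T.root l j)
      rw [h1, Matrix.det_mul_row
        (fun j => - Polynomial.aeval (T.J l j) (Polynomial.derivative (T.p (T.c l j))))
        (Matrix.of fun i j => E i (T.J l j))]
      refine mul_ne_zero (Finset.prod_ne_zero_iff.2 fun j _ => neg_ne_zero.2 ?_) (hdet l)
      exact (T.sep _).aeval_derivative_ne_zero (T.root l j)
    refine ⟨D, hphi, ?_⟩
    have h2 : (fun i : Fin w => ω i.succ D / ω 0 D) = x := by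
      funext i
      rw [div_eq_iff hphi]
      change T.phi M c a (x i) D = x i * T.phi M c a 1 D
      unfold Fam.phi
      ring
    rw [h2]
    exact hbas.1

end Pool.Agent.Y190.SC
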