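import Pool.Agent.Y190.SC.Res

/-!
The hypersurface `w ^ d = H (a 1) * ... * H (a d)`.
-/

set_option autoImplicit false

open MvPolynomial Metric Filter Topology

namespace Pool.Agent.Y190.SC

open Pool.Agent.W602.Cov Pool.Agent.W602.Cov.Cover Pool.Agent.W602.Cov.R Pool.Agent.W603.BP
open Pool.Agent.W601.PH Pool.Agent.W602.GT Pool.Agent.Y216 Pool.Agent.Y216.LG
open Pool.Agent.TH152.HY hiding aeval_inr main
open Pool.Agent.Y191 (SemiAbelianOff semi_of_brody lf)

variable {n d : ℕ}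

/-- the equation `w ^ d = H (a 1) * ... * H (a d)` in the coordinates of `P^(n+1)` -/
noncomputable def cycEq (n : ℕ) {d : ℕ} (a : Fin d → ℂ) : BiPoly (n + 1) n :=
  X (Sum.inl (Fin.last (n + 1))) ^ d -
    ∏ i, ∑ l : Fin (n + 1), C (a i ^ (l : ℕ)) * X (Sum.inl l.castSucc)

/-- The hypersurface `w ^ d = H (a 1) * ... * H (a d)` in `P^(n+1)`, with the coordinates
`(H, w)`, `H` a polynomial of degree at most `n`; as a subset of `P^(n+1) × P^n` it is given as the
graph of the morphism which maps `(H, w)` to `H`. -/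
noncomputable def cyc (n : ℕ) {d : ℕ} (a : Fin d → ℂ) : BiSet (n + 1) n where
  eqs := {G | (∃ i j : Fin (n + 1), G = X (Sum.inl i.castSucc) * X (Sum.inr j) -
    X (Sum.inl j.castSucc) * X (Sum.inr i)) ∨ G = cycEq n a}
  hom := by
    rintro G (⟨i, j, rfl⟩ | rfl)
    · refine ⟨1, 1, ?_⟩
      have hx : ∀ i : Fin (n + 2), BiHom (X (Sum.inl i) : BiPoly (n + 1) n) 1 0 := fun i =>
        isWeightedHomogeneous_X ℂ _ (Sum.inl i)
      have hy : ∀ i : Fin (n + 1), BiHom (X (Sum.inr i) : BiPoly (n + 1) n) 0 1 := fun i =>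
        isWeightedHomogeneous_X ℂ _ (Sum.inr i)
      exact (IsWeightedHomogeneous.mul (hx _) (hy _)).sub (IsWeightedHomogeneous.mul (hx _) (hy _))
    · refine ⟨d, 0, ?_⟩
      have hx : ∀ i : Fin (n + 2), BiHom (X (Sum.inl i) : BiPoly (n + 1) n) 1 0 := fun i =>
        isWeightedHomogeneous_X ℂ _ (Sum.inl i)
      unfold cycEq
      refine IsWeightedHomogeneous.sub ?_ ?_
      · have := IsWeightedHomogeneous.pow (hx (Fin.last (n + 1))) d
        simpa using this
      · have h1 : ∀ i ∈ (Finset.univ : Finset (Fin d)), IsWeightedHomogeneous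
            (Sum.elim (fun _ => ((1 : ℕ), (0 : ℕ))) fun _ => ((0 : ℕ), (1 : ℕ)))
            (∑ l : Fin (n + 1), C (a i ^ (l : ℕ)) * X (Sum.inl l.castSucc) : BiPoly (n + 1) n)
            ((1 : ℕ), (0 : ℕ)) := by
          intro i _
          refine IsWeightedHomogeneous.sum _ _ _ fun l _ => ?_
          have := (isWeightedHomogeneous_C (Sum.elim (fun _ : Fin (n + 2) => ((1 : ℕ), (0 : ℕ)))
            fun _ : Fin (n + 1) => ((0 : ℕ), (1 : ℕ))) (a i ^ (l : ℕ))).mul (hx l.castSucc)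
          simpa using this
        have h2 := IsWeightedHomogeneous.prod _ _ _ h1
        simpa using h2

theorem cyc_mem (hd : d ≠ 0) {a : Fin d → ℂ} {L : Type} [Field L] [Algebra ℂ L] {x : Fin (n + 2) → L}
    {y : Fin (n + 1) → L} (h : (cyc n a).Mem x y) : ∃ r : L, r ≠ 0 ∧
      (∀ i : Fin (n + 1), x i.castSucc = r * y i) ∧
      x (Fin.last (n + 1)) ^ d = r ^ d * ∏ i, lf (fun l : Fin (n + 1) => a i ^ (l : ℕ)) y := by
  obtain ⟨hx, hy, he⟩ := h
  obtain ⟨k, hk⟩ := Function.ne_iff.mp hy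
  have hk' : y k ≠ 0 := hk
  have h1 : ∀ i : Fin (n + 1), x i.castSucc = x k.castSucc / y k * y i := by
    intro i
    have h2 := he _ (Or.inl ⟨i, k, rfl⟩)
    rw [map_sub, map_mul, map_mul, aeval_X, aeval_X, aeval_X, aeval_X, Sum.elim_inl, Sum.elim_inl,
      Sum.elim_inr, Sum.elim_inr, sub_eq_zero] at h2
    field_simp
    exact h2
  set r := x k.castSucc / y k with hr
  have h3 : x (Fin.last (n + 1)) ^ d = r ^ d * ∏ i, lf (fun l : Fin (n + 1) => a i ^ (l : ℕ)) y := by
    have h2 := he _ (Or.inr rfl)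
    unfold cycEq at h2
    rw [map_sub, map_pow, aeval_X, Sum.elim_inl, map_prod, sub_eq_zero] at h2
    rw [h2]
    have h4 : ∀ i : Fin d, aeval (Sum.elim x y)
        (∑ l : Fin (n + 1), C (a i ^ (l : ℕ)) * X (Sum.inl l.castSucc) : BiPoly (n + 1) n) =
        r * lf (fun l : Fin (n + 1) => a i ^ (l : ℕ)) y := by
      intro i
      unfold lf
      rw [map_sum, Finset.mul_sum]
      refine Finset.sum_congr rfl fun l _ => ?_
      rw [map_mul, aeval_C, aeval_X, Sum.elim_inl, h1 l]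
      ring
    rw [Finset.prod_congr rfl fun i _ => h4 i, Finset.prod_mul_distrib, Finset.prod_const,
      Finset.card_univ, Fintype.card_fin]
  refine ⟨r, ?_, h1, h3⟩
  intro hr0
  apply hx
  funext i
  refine Fin.lastCases ?_ (fun i => ?_) i
  · rw [hr0, zero_pow hd, zero_mul] at h3
    exact eq_zero_of_pow_eq_zero h3
  · rw [h1 i, hr0, zero_mul]
    rfl

theorem cyc_sum (hd : d ≠ 0) (a : Fin d → ℂ) (D : BiSet (n + 1) n) :
    RamifiedSum (cyc n a) D a d (fun _ => 1) := by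
  intro L _ _ x y hxy h0 P _ b s hN hs hs0
  obtain ⟨r, hr, -, hw⟩ := cyc_mem hd hxy
  have hne : (∏ i, lf (fun l : Fin (n + 1) => a i ^ (l : ℕ)) y) ≠ 0 :=
    Finset.prod_ne_zero_iff.2 fun i _ => h0 i
  have hw0 : x (Fin.last (n + 1)) ≠ 0 := by
    intro h
    rw [h, zero_pow hd] at hw
    exact mul_ne_zero (pow_ne_zero _ hr) hne hw.symm
  have h1 : (d : ℤ) * P.ord (x (Fin.last (n + 1))) = d * P.ord r + ∑ i, (b + s i) := by
    rw [← P.ord_pow, hw, P.ord_mul (pow_ne_zero _ hr) hne, P.ord_pow]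
    congr 1
    rw [← Finset.sum_congr rfl fun i _ => hs i]
    exact Pool.Agent.W602.GT.ord_prod' P _ _ fun i _ => h0 i
  rw [Finset.sum_add_distrib, Finset.sum_const, Finset.card_univ, Fintype.card_fin,
    nsmul_eq_mul] at h1
  have h2 : (d : ℤ) ∣ ((∑ i, s i : ℕ) : ℤ) := by
    refine ⟨P.ord (x (Fin.last (n + 1))) - P.ord r - b, ?_⟩
    push_cast
    linarith
  have h3 : 0 < ∑ i, s i := by
    obtain ⟨i, hi⟩ := Function.ne_iff.mp hs0
    exact lt_of_lt_of_le (Nat.pos_of_ne_zero hi)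
      (Finset.single_le_sum (fun _ _ => Nat.zero_le _) (Finset.mem_univ i))
  simp only [one_mul]
  exact Nat.le_of_dvd h3 (by exact_mod_cast h2)

theorem cyc_finite (hd : d ≠ 0) (a : Fin d → ℂ) : FiniteOver (cyc n a) := by
  intro L _ _ x y hxy
  obtain ⟨r, hr, hx, hw⟩ := cyc_mem hd hxy
  set F := IntermediateField.adjoin ℂ {f : L | ∃ i j, y j ≠ 0 ∧ f = y i / y j} with hF
  obtain ⟨k, hk⟩ := Function.ne_iff.mp hxy.2.1
  have hk' : y k ≠ 0 := hk
  have hyF : ∀ i, y i / y k ∈ F := fun i => IntermediateField.subset_adjoin ℂ _ ⟨i, k, hk', rfl⟩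
  -- all ratios with the coordinate `k`
  have h1 : ∀ i : Fin (n + 2), IsAlgebraic F (x i / (r * y k)) := by
    intro i
    refine Fin.lastCases ?_ (fun i => ?_) i
    · have h2 : IsAlgebraic F ((x (Fin.last (n + 1)) / (r * y k)) ^ d) := by
        have h3 : (x (Fin.last (n + 1)) / (r * y k)) ^ d =
            ∏ i, (lf (fun l : Fin (n + 1) => a i ^ (l : ℕ)) y / y k) := by
          rw [Finset.prod_div_distrib, Finset.prod_const, Finset.card_univ, Fintype.card_fin,
            div_pow, hw, mul_pow, mul_div_mul_left _ _ (pow_ne_zero _ hr)]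
        have h4 : ∀ i, lf (fun l : Fin (n + 1) => a i ^ (l : ℕ)) y / y k ∈ F := by
          intro i
          unfold lf
          rw [Finset.sum_div]
          refine F.sum_mem fun l _ => ?_
          rw [mul_div_assoc]
          exact F.mul_mem (F.algebraMap_mem _) (hyF l)
        rw [h3]
        have h5 : (∏ i, (lf (fun l : Fin (n + 1) => a i ^ (l : ℕ)) y / y k)) ∈ F :=
          F.prod_mem fun i _ => h4 i
        exact isAlgebraic_algebraMap (R := F) (A := L) ⟨_, h5⟩
      exact h2.of_pow (Nat.pos_of_ne_zero hd)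
    · rw [hx i, mul_div_mul_left _ _ hr]
      exact isAlgebraic_algebraMap (R := F) (A := L) ⟨_, hyF i⟩
  intro i j _
  have h2 : x i / x j = x i / (r * y k) * (x j / (r * y k))⁻¹ := by
    have : r * y k ≠ 0 := mul_ne_zero hr hk'
    field_simp
  rw [h2]
  exact (h1 i).mul (h1 j).inv

/-- the coordinate `w` -/
noncomputable def cw (n : ℕ) : BiPoly (n + 1) n := X (Sum.inl (Fin.last (n + 1)))

theorem cw_ne {a : Fin d → ℂ} (hd : d ≠ 0) {L : Type} [Field L] [Algebra ℂ L]
    {x : Fin (n + 2) → L} {y : Fin (n + 1) → L} (h : (cyc n a).Mem x y)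
    (hw : aeval (Sum.elim x y) (cw n) ≠ 0) : aeval (Sum.elim x y) (hyp (n + 1) n a) ≠ 0 := by
  obtain ⟨r, hr, -, h1⟩ := cyc_mem hd h
  unfold cw at hw
  rw [aeval_X, Sum.elim_inl] at hw
  rw [aeval_hyp]
  intro h0
  rw [h0, mul_zero] at h1
  exact hw (eq_zero_of_pow_eq_zero h1)

/-- **The hypersurface `w ^ d = H (a 1) * ... * H (a d)`.** -/
theorem cyc_main {a : Fin d → ℂ} (ha : Function.Injective a) (hd : 3 * n < d)
    (D : BiSet (n + 1) n) :
    PicardOff (cyc n a) D (cw n) ∧ BrodyOff (cyc n a) D (cw n) ∧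
      SemiAbelianOff (cyc n a) D (cw n) ∧ LangOff (cyc n a) D (cw n) := by
  have hd0 : d ≠ 0 := by omega
  obtain ⟨h1, -, -, h2⟩ := main_fin (c := fun _ : Fin d => 1) (M := d) Pool.Agent.Y618.SA.s_an ha
    (by
      rw [Finset.sum_const, Finset.card_univ, Fintype.card_fin, smul_eq_mul, mul_one,
        ← Nat.add_mul]
      exact Nat.mul_lt_mul_of_pos_right (by omega) (by omega))
    (cyc_sum hd0 a D) (cyc_finite hd0 a)
  have hP : PicardOff (cyc n a) D (cw n) := by
    rintro u v huv ⟨z, hz, hne⟩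
    exact h1 u v huv ⟨z, hz, cw_ne hd0 (L := ℂ) (huv.mem z hz).1 hne⟩
  refine ⟨hP, brody_of_picard hP, semi_of_brody (brody_of_picard hP), ?_⟩
  intro L _ _ x y w hxy hD hne
  exact h2 L x y w hxy hD (cw_ne hd0 hxy hne)

end Pool.Agent.Y190.SC
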