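import Pool.Agent.TH152.HY.QDefs
import Pool.Agent.Y191.Lf

/-!
Quasi-projective varieties over the projective space of the polynomials of degree at most `n`, with
a condition on the sum of the contact orders with the hyperplanes of the polynomials which vanish at
given numbers.
-/

set_option autoImplicit false

open Pool.Agent.W602.Cov.R Pool.Agent.W602.GT Pool.Agent.TH152.HY
open Pool.Agent.Y191 (lf)

namespace Pool.Agent.Y190.SC

variable {N n q : ℕ}

/-- The morphism from `X - D` to `P^n` (the second projection), the projective space of the
polynomials `∑ l, y l * T ^ l` of degree at most `n`, is ramified to total order at least `M`, with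
the weights `c i`, over the hyperplanes of the polynomials which vanish at `a i`. For every point of
`X` over a field `L` with a discrete valuation `P` whose centre is in `X - D`, such that the point is
not over one of the hyperplanes, the contact orders `s i` with the hyperplanes, that is the
valuations of the values of the polynomial at `a i` minus the minimum `b` of the valuations of its
coefficients, are all zero, or the sum of the `c i * s i` is at least `M`. -/
def RamifiedSum (X D : BiSet N n) (a : Fin q → ℂ) (M : ℕ) (c : Fin q → ℕ) : Prop :=
  ∀ (L : Type) [Field L] [Algebra ℂ L] (x : Fin (N + 1) → L) (y : Fin (n + 1) → L), X.Mem x y →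
    (∀ i, lf (fun l : Fin (n + 1) => a i ^ (l : ℕ)) y ≠ 0) →
    ∀ P : FF.Place ℂ L, ¬ CentreIn D x y P → ∀ (b : ℤ) (s : Fin q → ℕ), Norm P y b →
    (∀ i, P.ord (lf (fun l : Fin (n + 1) => a i ^ (l : ℕ)) y) = b + s i) → s ≠ 0 →
    M ≤ ∑ i, c i * s i

end Pool.Agent.Y190.SC
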