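import Pool.Agent.Y216.LG.Inf

/-!
Statements: polynomials over the field of the meromorphic functions near infinity, with a condition
on the sum of the contact orders with constants.
-/

set_option autoImplicit false

open Polynomial

namespace Pool.Agent.Y190.SC

open FF Pool.Agent.W603.BP Pool.Agent.W601.PH Pool.Agent.Y190.BV Pool.Agent.Y190.AN

/-- Either all contact orders of `H` with the constants `a i` are zero, or the weighted sum is at
least `M`. -/
def SumC {k K : Type} [Field k] [Field K] [Algebra k K] {q : ℕ} (M : ℕ) (c : Fin q → ℕ)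
    (a : Fin q → k) (H : K[X]) (P : Place k K) : Prop :=
  (∀ i, ct P H (a i) = 0) ∨ (M : ℤ) ≤ ∑ i, (c i : ℤ) * ct P H (a i)

/-- Job SC-AN. -/
def S_AN : Prop :=
  ∀ (r0 : ℝ) (hr0 : 0 < r0) (n q : ℕ) (a : Fin q → ℂ), Function.Injective a →
    ∀ (M : ℕ) (c : Fin q → ℕ), n * ∑ i, c i + 2 * n * M < q * M →
    ∀ H : (MK (exD r0 hr0))[X], H ≠ 0 → H.natDegree ≤ n →
    (∀ i, H.eval (algebraMap ℂ (MK (exD r0 hr0)) (a i)) ≠ 0) →
    (∀ (z : ℂ) (hz : z ∈ (exD r0 hr0).U), SumC M c a H (PL hz)) →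
    ∃ (u : MK (exD r0 hr0)) (H' : (Minf r0 hr0)[X]), u ≠ 0 ∧
      H = C u * H'.map (algebraMap (Minf r0 hr0) (MK (exD r0 hr0)))

end Pool.Agent.Y190.SC
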