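import Pool.Agent.Y190.SC.Defs
import Pool.Agent.Y190.SC.Stm
import Pool.Agent.Y216.LG.Disc

/-!
Holomorphic maps from the punctured disc to quasi-projective varieties over the space of
polynomials, with a condition on the sum of the contact orders.
-/

set_option autoImplicit false

open Filter Topology Set Metric

namespace Pool.Agent.Y190.SC

open FF Pool.Agent.W603.BP Pool.Agent.W601.PH Pool.Agent.Y216 Pool.Agent.Y190.BV
  Pool.Agent.Y190.AN Pool.Agent.W602.Cov.R Pool.Agent.Y216.LG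
open Pool.Agent.TH152.HY hiding aeval_inr main
open Pool.Agent.Y191 (lf)

theorem norm_cnt {n : ℕ} {L : Type} [Field L] [Algebra ℂ L] {P : Place ℂ L} {y : Fin (n + 1) → L}
    (hy : y ≠ 0) : Norm P y (cnt P (pol y)) := by
  obtain ⟨j, hj, hj2⟩ := cnt_att P (pol_ne hy)
  constructor
  · intro l hl
    rcases cnt_ge P (pol y) (l : ℕ) with h0 | h0
    · rw [coeff_pol] at h0
      exact absurd h0 hl
    · rwa [coeff_pol] at h0
  · by_cases hj3 : j < n + 1
    · rw [coeff_pol_lt _ hj3] at hj hj2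
      exact ⟨_, hj, hj2⟩
    · rw [coeff_pol_ge _ (by omega)] at hj
      exact absurd rfl hj

theorem RamifiedSum.sumC {N n q : ℕ} {X D : BiSet N n} {a : Fin q → ℂ} {M : ℕ} {c : Fin q → ℕ}
    (h : RamifiedSum X D a M c) {L : Type} [Field L] [Algebra ℂ L] {x : Fin (N + 1) → L}
    {y : Fin (n + 1) → L} (hxy : X.Mem x y)
    (h0 : ∀ i, (pol y).eval (algebraMap ℂ L (a i)) ≠ 0) {P : FF.Place ℂ L}
    (hP : ¬ CentreIn D x y P) : SumC M c a (pol y) P := by
  have hN : Norm P y (cnt P (pol y)) := norm_cnt hxy.2.1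
  have h1 : ∀ i, ∃ s : ℕ, ct P (pol y) (a i) = s := fun i =>
    Int.eq_ofNat_of_zero_le (ct_nonneg P (h0 i))
  choose s hs using h1
  by_cases hs0 : s = 0
  · left
    intro i
    rw [hs i, hs0]
    rfl
  · right
    have h2 := h L x y hxy (fun i => by rw [← eval_pol_eq]; exact h0 i) P hP _ s hN (fun i => by
      rw [← eval_pol_eq, ← hs i]
      unfold ct
      ring) hs0
    simp only [hs]
    exact_mod_cast h2

/-- the linear form of the evaluation at `a` -/
noncomputable def lfP (n : ℕ) (a : ℂ) : MvPolynomial (Fin (n + 1)) ℂ :=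
  ∑ l : Fin (n + 1), MvPolynomial.C (a ^ (l : ℕ)) * MvPolynomial.X l

theorem aeval_lfP {n : ℕ} (a : ℂ) {L : Type} [CommRing L] [Algebra ℂ L] (y : Fin (n + 1) → L) :
    MvPolynomial.aeval y (lfP n a) = ∑ l : Fin (n + 1), algebraMap ℂ L (a ^ (l : ℕ)) * y l := by
  unfold lfP
  rw [map_sum]
  refine Finset.sum_congr rfl fun l _ => ?_
  rw [map_mul, MvPolynomial.aeval_C, MvPolynomial.aeval_X]

theorem hom_lfP (n : ℕ) (a : ℂ) : (lfP n a).IsHomogeneous 1 := by
  unfold lfP
  refine MvPolynomial.IsHomogeneous.sum _ _ _ fun l _ => ?_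
  have := (MvPolynomial.isHomogeneous_C (Fin (n + 1)) (a ^ (l : ℕ))).mul
    (MvPolynomial.isHomogeneous_X ℂ l)
  rwa [zero_add] at this

variable {N n q : ℕ}

/-- **Picard's theorem** for maps to the space of polynomials. -/
theorem disc_extends (hAN : S_AN) {X D : BiSet N n} {a : Fin q → ℂ} (ha : Function.Injective a)
    {M : ℕ} {c : Fin q → ℕ} (hbound : n * ∑ i, c i + 2 * n * M < q * M)
    (hR : RamifiedSum X D a M c) {u : ℂ → Fin (N + 1) → ℂ} {v : ℂ → Fin (n + 1) → ℂ}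
    (huv : QDisc X D u v) {z0 : ℂ} (hz0 : z0 ∈ PB 1)
    (hGz : ∀ i, MvPolynomial.eval (v z0) (lfP n (a i)) ≠ 0) : Extends v := by
  have hu := fun j => an_of_diffOn huv.diffu j
  have hv := fun j => an_of_diffOn huv.diffv j
  have hmemz : ∀ z ∈ PB 1, QMem X D (u z) (v z) := fun z hz => huv.mem z (mem_disc.mpr hz)
  have hinvE : ∀ z ∈ Ext 1, z⁻¹ ∈ PB 1 ∧ z ≠ 0 := by
    intro z hz
    have hz1 : 1 < ‖z‖ := hz
    have hz0 : z ≠ 0 := by
      rintro rfl
      rw [norm_zero] at hz1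
      linarith
    exact ⟨⟨inv_ne_zero hz0, by rw [norm_inv]; exact inv_lt_one_of_one_lt₀ hz1⟩, hz0⟩
  have han : ∀ {k : ℕ} {f : ℂ → Fin k → ℂ}, (∀ j, AnalyticOnNhd ℂ (fun z => f z j) (PB 1)) →
      ∀ i, ∀ z ∈ Ext 1, AnalyticAt ℂ (fun z => f z⁻¹ i) z := by
    intro k f hf i z hz
    obtain ⟨h1, h2⟩ := hinvE z hz
    exact (hf i z⁻¹ h1).comp (g := fun w => f w i) (f := fun w : ℂ => w⁻¹) (analyticAt_inv h2)
  -- the coordinates as one family
  let F : Fin (N + 1) ⊕ Fin (n + 1) → ℂ → ℂ :=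
    fun s z => Sum.elim (u z⁻¹) (v z⁻¹) s
  have hFan : ∀ s, ∀ z ∈ Ext 1, AnalyticAt ℂ (F s) z := by
    rintro (j | j) z hz
    · exact han hu j z hz
    · exact han hv j z hz
  have hFM : ∀ s, MeromorphicOn (F s) (exD 1 one_pos).U := fun s z hz =>
    (hFan s z hz).meromorphicAt
  let x : Fin (N + 1) → MK (exD 1 one_pos) := fun j => cl (F (Sum.inl j)) (hFM _)
  let y : Fin (n + 1) → MK (exD 1 one_pos) := fun j => cl (F (Sum.inr j)) (hFM _)
  have hxy : (fun s => cl (F s) (hFM s)) = Sum.elim x y := by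
    funext s
    rcases s with s | s <;> rfl
  have hval : ∀ P : BiPoly N n, ∃ h : MeromorphicOn
      (fun z => MvPolynomial.eval (Sum.elim (u z⁻¹) (v z⁻¹)) P) (exD 1 one_pos).U,
      MvPolynomial.aeval (Sum.elim x y) P =
        cl (fun z => MvPolynomial.eval (Sum.elim (u z⁻¹) (v z⁻¹)) P) h := by
    intro P
    have h1 := eval_mero' P hFM
    refine ⟨h1, ?_⟩
    rw [← hxy]
    exact aeval_cl P hFM h1
  have hPan : ∀ P : BiPoly N n, ∀ z ∈ Ext 1,
      AnalyticAt ℂ (fun z => MvPolynomial.eval (Sum.elim (u z⁻¹) (v z⁻¹)) P) z := by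
    intro P z hz
    simp only [MvPolynomial.eval_eq']
    apply Finset.analyticAt_fun_sum
    intro α _
    apply AnalyticAt.fun_mul analyticAt_const
    apply Finset.analyticAt_fun_prod
    intro s _
    exact (hFan s z hz).fun_pow _
  have hnz : ∀ (f : ℂ → ℂ) (hf : MeromorphicOn f (exD 1 one_pos).U), ∀ z ∈ Ext 1,
      AnalyticAt ℂ f z → f z ≠ 0 → cl f hf ≠ 0 := by
    intro f hf z hz hfa hfz h0
    have h2 := (hfa.frequently_zero_iff_eventually_zero.1 (cl_eq_zero.1 h0 z hz).frequently)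
    exact hfz h2.self_of_nhds
  have h0P : z0⁻¹ ∈ Ext 1 := inv_mem_ext hz0
  -- the point over the field of meromorphic functions
  have hmem : X.Mem x y := by
    obtain ⟨⟨ha', hb, _⟩, _⟩ := hmemz z0 hz0
    refine ⟨?_, ?_, ?_⟩
    · intro h0
      apply ha'
      funext j
      by_contra hj
      refine hnz _ (hFM (Sum.inl j)) _ h0P (hFan _ _ h0P) ?_ (congrFun h0 j)
      change u z0⁻¹⁻¹ j ≠ 0
      rw [inv_inv]
      exact hj
    · intro h0
      apply hb
      funext j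
      by_contra hj
      refine hnz _ (hFM (Sum.inr j)) _ h0P (hFan _ _ h0P) ?_ (congrFun h0 j)
      change v z0⁻¹⁻¹ j ≠ 0
      rw [inv_inv]
      exact hj
    · intro P hP
      obtain ⟨h1, h2⟩ := hval P
      rw [h2, cl_eq_zero]
      intro z hz
      filter_upwards [nhdsWithin_le_nhds ((Ext_open 1).mem_nhds hz)] with w hw
      exact (hmemz w⁻¹ (hinvE w hw).1).1.2.2 P hP
  -- the centres
  have hcen : ∀ (z : ℂ) (hz : z ∈ (exD 1 one_pos).U), ¬ CentreIn D x y (PL hz) := by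
    intro z hz hcen
    have hz' : z⁻¹ ∈ PB 1 := (hinvE z hz).1
    obtain ⟨⟨hu0, hv0, -⟩, hD⟩ := hmemz z⁻¹ hz'
    have hnorm : ∀ {k : ℕ} (f : ℂ → Fin k → ℂ) (g : Fin k → ℂ → ℂ)
        (hg : ∀ j, MeromorphicOn (g j) (exD 1 one_pos).U), (∀ j, g j = fun z => f z⁻¹ j) →
        (∀ j, ∀ z ∈ Ext 1, AnalyticAt ℂ (g j) z) → f z⁻¹ ≠ 0 →
        Norm (PL hz) (fun j => cl (g j) (hg j)) 0 := by
      intro k f g hg hgf hga hf0
      constructor
      · intro j hj
        rcases ge_cl (hg := hg j) hz (hga j z hz) with h1 | h1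
        · exact absurd h1 hj
        · exact h1
      · obtain ⟨j, hj⟩ := Function.ne_iff.mp hf0
        have hgj : g j z ≠ 0 := by
          rw [hgf j]
          exact hj
        refine ⟨j, hnz _ (hg j) z hz (hga j z hz) hgj, ?_⟩
        have h1 : analyticOrderAt (g j) z = ((0 : ℕ) : ℕ∞) := by
          rw [Nat.cast_zero, (hga j z hz).analyticOrderAt_eq_zero]
          exact hgj
        have := ord_cl (hg := hg j) hz (hga j z hz) h1
        exact_mod_cast this
    have hNa : Norm (PL hz) x 0 := hnorm u (fun j => F (Sum.inl j)) (fun j => hFM _)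
      (fun j => rfl) (fun j => hFan _) hu0
    have hNb : Norm (PL hz) y 0 := hnorm v (fun j => F (Sum.inr j)) (fun j => hFM _)
      (fun j => rfl) (fun j => hFan _) hv0
    apply hD
    refine ⟨hu0, hv0, fun P hP => ?_⟩
    obtain ⟨E, E', hE⟩ := D.hom P hP
    by_contra hne
    have hne' : MvPolynomial.eval (Sum.elim (u z⁻¹) (v z⁻¹)) P ≠ 0 := hne
    obtain ⟨h1, h2⟩ := hval P
    rcases hcen 0 0 hNa hNb P hP E E' hE with h3 | h3
    · rw [h2] at h3
      exact hnz _ h1 z hz (hPan P z hz) hne' h3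
    · rw [h2] at h3
      have h4 : analyticOrderAt (fun z => MvPolynomial.eval (Sum.elim (u z⁻¹) (v z⁻¹)) P) z =
          ((0 : ℕ) : ℕ∞) := by
        rw [Nat.cast_zero, (hPan P z hz).analyticOrderAt_eq_zero]
        exact hne'
      have h5 := ord_cl (hg := h1) hz (hPan P z hz) h4
      rw [h5] at h3
      simp at h3
  -- not over the hyperplanes
  have h0 : ∀ i, (pol y).eval (algebraMap ℂ (MK (exD 1 one_pos)) (a i)) ≠ 0 := by
    intro i
    have h1 : (pol y).eval (algebraMap ℂ (MK (exD 1 one_pos)) (a i)) =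
        MvPolynomial.aeval (Sum.elim x y) (MvPolynomial.rename Sum.inr (lfP n (a i))) := by
      rw [MvPolynomial.aeval_rename]
      change _ = MvPolynomial.aeval y (lfP n (a i))
      rw [eval_pol_eq, aeval_lfP]
      rfl
    rw [h1]
    obtain ⟨h2, h3⟩ := hval (MvPolynomial.rename Sum.inr (lfP n (a i)))
    rw [h3]
    refine hnz _ h2 _ h0P (hPan _ _ h0P) ?_
    rw [inv_inv, MvPolynomial.eval_rename]
    exact hGz i
  obtain ⟨s, H', hs, hH'⟩ := hAN 1 one_pos n q a ha M c hbound (pol y) (pol_ne hmem.2.1)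
    (natDegree_pol_le y) h0 fun z hz => hR.sumC hmem h0 (hcen z hz)
  refine extends_minf hv (fun w hw => (hmemz w hw).1.2.1) (fun i => hFM (Sum.inr i)) fun i j hj => ?_
  have hco : ∀ l : Fin (n + 1), cl (F (Sum.inr l)) (hFM _) =
      s * algebraMap (Minf 1 one_pos) (MK (exD 1 one_pos)) (H'.coeff (l : ℕ)) := by
    intro l
    have h1 := coeff_pol y l
    rw [hH', Polynomial.coeff_C_mul, Polynomial.coeff_map] at h1
    exact h1.symm
  change cl (F (Sum.inr i)) _ / cl (F (Sum.inr j)) _ ∈ _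
  rw [hco i, hco j, mul_div_mul_left _ _ hs, ← map_div₀]
  exact (H'.coeff (i : ℕ) / H'.coeff (j : ℕ) : Minf 1 one_pos).2

end Pool.Agent.Y190.SC
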