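import Pool.Agent.Y190.BV.Rad

/-!
Determinants of the values of derived polynomials at roots, the polynomial depending on the column:
local estimates.
-/

set_option autoImplicit false

open FF Pool.Agent.W603.LV Pool.Agent.W602.GT

namespace Pool.Agent.Y190.SC

open Pool.Agent.Y190.BV

variable {k K L : Type} [Field k] [Field K] [Field L] [Algebra k K] [Algebra k L] [Algebra K L]

/-- The expected order of an entry. -/
noncomputable def bet (W : Place k L) (e : ℕ) (c0 : ℤ) (d : ℕ) {q : ℕ} (a : Fin q → k) (t : L) :
    ℤ := e * c0 - d * tau W t + ∑ i, vv W t (a i)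

/-- **Local estimate for an entry.** -/
theorem entry2 [IsScalarTower k K L] {W : Place k L} {P : Place k K} {e : ℕ} (hWP : Over W P e)
    {q d : ℕ} (f : ℕ → K) {c0 : ℤ} (hf : ∀ j < d + 1, Ge P c0 (f j)) (a : Fin q → k)
    (ha : Function.Injective a) (h0 : ∀ i, ev K (d + 1) f (algebraMap k K (a i)) ≠ 0)
    (t : L) (ht : ev L (d + 1) f t = 0) (b : Bool) (D : Derivation k K K) (hD : DKind b P D) :
    Ge W (bet W e c0 d a t - if b = true ∧ ∃ i, 0 < vv W t (a i) then (e : ℤ) else 0)
      (ev L (d + 1) (fun j => D (f j)) t) := by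
  obtain ⟨p, hp0, hp⟩ := P.surj
  have hpc0 : p ^ c0 ≠ 0 := zpow_ne_zero _ hp0
  have hpc : P.ord (p ^ c0) = c0 := by rw [P.ord_zpow, hp, mul_one]
  set f1 : ℕ → K := fun j => f j / p ^ c0 with hf1
  have hff1 : f = fun j => p ^ c0 * f1 j := by
    funext j
    simp only [hf1]
    field_simp
  have hf1i : ∀ j < d + 1, Ge P 0 (f1 j) := by
    intro j hj
    have h1 : Ge P (0 + c0) (p ^ c0 * f1 j) := by
      have := hf j hj
      rw [hff1] at this
      simpa using this
    exact Ge.of_mul' hpc0 hpc h1
  have het : ev L (d + 1) f1 t = 0 := by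
    have h1 := ht
    rw [hff1, ev_smul] at h1
    exact (mul_eq_zero.1 h1).resolve_left ((map_ne_zero _).2 hpc0)
  have hkey : ev L (d + 1) (fun j => D (f j)) t =
      algebraMap K L (p ^ c0) * ev L (d + 1) (fun j => D (f1 j)) t := by
    have h1 : (fun j => D (f j)) = fun j => p ^ c0 * D (f1 j) + D (p ^ c0) * f1 j := by
      funext j
      conv_lhs => rw [hff1]
      simp only
      rw [D.leibniz]
      simp only [smul_eq_mul]
      ring
    rw [h1, ev_add, ev_smul, ev_smul, het, mul_zero, add_zero]
  have hpW : Ge W (e * c0) (algebraMap K L (p ^ c0)) := over_ge hWP (Or.inr hpc.ge)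
  have hDi : ∀ j < d + 1, Ge W 0 (algebraMap K L (D (f1 j))) := by
    intro j hj
    have := over_ge hWP (hD.int (hf1i j hj))
    simpa using this
  have hfi : ∀ j < d + 1, Ge W 0 (algebraMap K L (f1 j)) := by
    intro j hj
    have := over_ge hWP (hf1i j hj)
    simpa using this
  have hta : ∀ i, t ≠ algebraMap k L (a i) := by
    rintro i rfl
    rw [ev_const, map_eq_zero] at ht
    exact h0 i ht
  by_cases hall : ∀ i, vv W t (a i) = 0
  · have hno : ¬ (b = true ∧ ∃ i, 0 < vv W t (a i)) := by
      rintro ⟨-, i, hi⟩
      rw [hall i] at hi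
      omega
    rw [if_neg hno, hkey]
    refine (hpW.mul (ge_ev W le_rfl _ hDi t)).mono ?_
    unfold bet
    rw [Finset.sum_eq_zero fun i _ => hall i]
    apply le_of_eq
    ring
  · push Not at hall
    obtain ⟨i, hi⟩ := hall
    have hiv : 0 < vv W t (a i) := lt_of_le_of_ne (vv_nonneg W (hta i)) (Ne.symm hi)
    have htau := tau_of_vv W (hta i) hiv
    have hvi : vv W t (a i) = W.ord (t - algebraMap k L (a i)) := by
      unfold vv
      rw [htau, add_zero]
    have hti : Ge W 0 t := by
      have := ge_tau W t
      rwa [htau, neg_zero] at this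
    have hai : Ge W 0 (algebraMap k L (a i)) := Ge.const _
    set v := vv W t (a i) with hv
    have h1 := ge_ev_sub W _ hDi hti hai
    have h2 := ge_ev_sub W _ hfi hti hai
    rw [← hvi] at h2
    rw [het, zero_sub, ev_const] at h2
    have h2' := ge_neg_iff h2
    have hei : ev K (d + 1) f (algebraMap k K (a i)) =
        p ^ c0 * ev K (d + 1) f1 (algebraMap k K (a i)) := by
      conv_lhs => rw [hff1]
      rw [ev_smul, Algebra.algebraMap_self, RingHom.id_apply]
    have hei0 : ev K (d + 1) f1 (algebraMap k K (a i)) ≠ 0 := by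
      intro h
      apply h0 i
      rw [hei, h, mul_zero]
    set μ := P.ord (ev K (d + 1) f1 (algebraMap k K (a i))) with hμ
    have h3 : v ≤ e * μ := by
      have := h2'.resolve_left ((map_ne_zero _).2 hei0)
      rwa [hWP.2] at this
    have h4 : Ge P (μ - if b then 1 else 0) (D (ev K (d + 1) f1 (algebraMap k K (a i)))) :=
      hD.drop (Or.inr le_rfl)
    have h6 : Ge W (min v (e * (μ - if b then 1 else 0))) (ev L (d + 1) (fun j => D (f1 j)) t) := by
      have h5 := over_ge hWP h4
      rw [der_ev_const, ← ev_const] at h5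
      have e1 : ev L (d + 1) (fun j => D (f1 j)) t =
          (ev L (d + 1) (fun j => D (f1 j)) t -
            ev L (d + 1) (fun j => D (f1 j)) (algebraMap k L (a i))) +
          ev L (d + 1) (fun j => D (f1 j)) (algebraMap k L (a i)) := by ring
      rw [e1]
      exact (h1.mono (by rw [← hvi]; exact min_le_left _ _)).add
        (h5.mono (min_le_right _ _))
    rw [hkey]
    refine (hpW.mul h6).mono ?_
    have hsum : ∑ l, vv W t (a l) = v := by
      rw [Finset.sum_eq_single i]
      · intro l _ hl
        exact vv_zero (fun h => hl (ha h).symm) (hta i) (hta l) hiv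
      · intro h
        exact absurd (Finset.mem_univ i) h
    have he : (0 : ℤ) < e := by exact_mod_cast hWP.1
    unfold bet
    rw [hsum, htau]
    cases b with
    | false =>
      simp only [Bool.false_eq_true, false_and, if_false, sub_zero]
      rw [min_eq_left h3]
      apply le_of_eq
      ring
    | true =>
      have hyes : (true = true ∧ ∃ i, 0 < vv W t (a i)) := ⟨rfl, i, hiv⟩
      rw [if_pos hyes]
      simp only [if_true]
      have h7 : v - e ≤ min v (e * (μ - 1)) := by
        refine le_min (by omega) ?_
        have : (e : ℤ) * (μ - 1) = e * μ - e := by ring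
        omega
      linarith

/-- a regular derivation which kills a uniformizer is logarithmic -/
theorem log_of_kill {P : Place k K} {D : Derivation k K K} (hD : DKind true P D) {u : K}
    (hu0 : u ≠ 0) (hu : P.ord u = 1) (hDu : D u = 0) : DKind false P D := by
  change DerLog P D
  intro f
  by_cases h0 : f = 0
  · rw [h0, div_zero]
    exact Ge.zero
  set n := P.ord f with hn
  have hun : u ^ n ≠ 0 := zpow_ne_zero _ hu0
  have hunO : P.ord (u ^ n) = n := by rw [P.ord_zpow, hu, mul_one]
  have hDun : D (u ^ n) = 0 := by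
    rw [Derivation.leibniz_zpow, hDu, smul_zero, smul_zero]
  have h1 : Ge P 0 (f / u ^ n) := by
    apply Ge.of_mul' (h := u ^ n) (m := n) hun hunO
    rw [mul_div_cancel₀ _ hun, zero_add]
    exact Or.inr hn.le
  have h2 : Ge P 0 (D (f / u ^ n)) := DKind.int (b := true) hD h1
  have e : D f = u ^ n * D (f / u ^ n) := by
    have e1 : f = u ^ n * (f / u ^ n) := (mul_div_cancel₀ _ hun).symm
    conv_lhs => rw [e1]
    rw [D.leibniz, hDun, smul_zero, add_zero, smul_eq_mul]
  have h3 : Ge P (0 + n) (f * (D f / f)) := by
    rw [mul_div_cancel₀ _ h0, e]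
    have h4 : Ge P n (u ^ n) := Or.inr hunO.ge
    have := h4.mul h2
    rw [add_zero] at this
    rwa [zero_add]
  exact Ge.of_mul' h0 hn.symm h3

/-- the matrix, the polynomial depending on the column -/
noncomputable def mat2 {w : ℕ} (d : Fin w → ℕ) (f : Fin w → ℕ → K) (J : Fin w → L)
    (D : Fin w → Derivation k K K) : Matrix (Fin w) (Fin w) L :=
  Matrix.of fun i j => ev L (d j + 1) (fun m => D i (f j m)) (J j)

omit [Algebra k L] in
theorem mat2_mul {w : ℕ} (d : Fin w → ℕ) (f : Fin w → ℕ → K) (J : Fin w → L)
    (B : Matrix (Fin w) (Fin w) K) (D : Fin w → Derivation k K K) :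
    mat2 d f J (fun i => ∑ l, B i l • D l) = (B.map (algebraMap K L)) * mat2 d f J D := by
  ext i j
  rw [Matrix.mul_apply]
  change ev L (d j + 1) (fun m => (∑ l, B i l • D l) (f j m)) (J j) =
    ∑ l, algebraMap K L (B i l) * ev L (d j + 1) (fun m => D l (f j m)) (J j)
  have h0 : ∀ (s : Finset (Fin w)) (x : K), (∑ l ∈ s, B i l • D l) x
      = ∑ l ∈ s, B i l * D l x := by
    intro s x
    classical
    induction s using Finset.induction_on with
    | empty => simp
    | insert i s hi ih =>
      rw [Finset.sum_insert hi, Finset.sum_insert hi, Derivation.add_apply, ih]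
      rfl
  unfold ev
  simp only [h0, map_sum, map_mul, Finset.sum_mul, Finset.mul_sum]
  rw [Finset.sum_comm]
  refine Finset.sum_congr rfl fun l _ => Finset.sum_congr rfl fun m _ => ?_
  ring

/-- **The order of the determinant.** -/
theorem det_ge [IsScalarTower k K L] {W : Place k L} {P : Place k K} {e : ℕ} (hWP : Over W P e)
    {q w : ℕ} (d : Fin w → ℕ) (f : Fin w → ℕ → K) (c0 : Fin w → ℤ)
    (hf : ∀ j, ∀ m < d j + 1, Ge P (c0 j) (f j m)) (a : Fin q → k)
    (ha : Function.Injective a) (h0 : ∀ j i, ev K (d j + 1) (f j) (algebraMap k K (a i)) ≠ 0)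
    (J : Fin w → L) (ht : ∀ j, ev L (d j + 1) (f j) (J j) = 0) (b : Bool)
    (D : Fin w → Derivation k K K) (hD : ∀ i, DKind b P (D i)) :
    Ge W (∑ j, bet W e (c0 j) (d j) a (J j) -
      if b = true ∧ ∃ j i, 0 < vv W (J j) (a i) then (e : ℤ) else 0) (mat2 d f J D).det := by
  classical
  set β : Fin w → ℤ := fun j => bet W e (c0 j) (d j) a (J j) with hβ
  by_cases hnear : b = true ∧ ∃ j i, 0 < vv W (J j) (a i)
  swap
  · rw [if_neg hnear, sub_zero]
    refine ge_det _ _ _ (fun i j => β j) (fun i j => ?_) (fun σ => le_rfl)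
    have h1 := entry2 hWP (f j) (hf j) a ha (h0 j) (J j) (ht j) b (D i) (hD i)
    have hno : ¬ (b = true ∧ ∃ i, 0 < vv W (J j) (a i)) := fun h => hnear ⟨h.1, j, h.2⟩
    rwa [if_neg hno, sub_zero] at h1
  · rw [if_pos hnear]
    obtain ⟨rfl, -⟩ := hnear
    obtain ⟨u, hu0, hu⟩ := P.surj
    have he : (0 : ℤ) < e := by exact_mod_cast hWP.1
    have hlog : ∀ (D' : Derivation k K K), DKind false P D' → ∀ j,
        Ge W (β j) (ev L (d j + 1) (fun m => D' (f j m)) (J j)) := by
      intro D' hD' j
      have h1 := entry2 hWP (f j) (hf j) a ha (h0 j) (J j) (ht j) false D' hD'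
      have hno : ¬ (false = true ∧ ∃ i, 0 < vv W (J j) (a i)) := by simp
      rwa [if_neg hno, sub_zero] at h1
    have hreg : ∀ (D' : Derivation k K K), DKind true P D' → ∀ j,
        Ge W (β j - e) (ev L (d j + 1) (fun m => D' (f j m)) (J j)) := by
      intro D' hD' j
      refine (entry2 hWP (f j) (hf j) a ha (h0 j) (J j) (ht j) true D' hD').mono ?_
      split_ifs
      · exact le_rfl
      · change β j - e ≤ β j - 0
        omega
    by_cases hall : ∀ i, D i u = 0
    · refine (ge_det W _ (∑ j, β j) (fun i j => β j) (fun i j => ?_) (fun σ => le_rfl)).mono ?_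
      · exact hlog (D i) (log_of_kill (hD i) hu0 hu (hall i)) j
      · change ∑ j, β j - (e : ℤ) ≤ ∑ j, β j
        linarith
    · push Not at hall
      obtain ⟨i1, hi1⟩ := hall
      obtain ⟨i0, hi0, hmin⟩ := Finset.exists_min_image
        (Finset.univ.filter fun i => D i u ≠ 0) (fun i => P.ord (D i u))
        ⟨i1, Finset.mem_filter.2 ⟨Finset.mem_univ _, hi1⟩⟩
      have hi0' : D i0 u ≠ 0 := (Finset.mem_filter.1 hi0).2
      -- the coefficients
      set x : Fin w → K := fun i => D i u / D i0 u with hx
      have hxge : ∀ i, Ge P 0 (x i) := by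
        intro i
        by_cases h : D i u = 0
        · simp only [hx, h, zero_div]
          exact Ge.zero
        · refine Ge.of_mul' (h := D i0 u) (m := P.ord (D i0 u)) hi0' rfl ?_
          simp only [hx]
          rw [mul_div_cancel₀ _ hi0', zero_add]
          exact Or.inr (hmin i (Finset.mem_filter.2 ⟨Finset.mem_univ _, h⟩))
      let D' : Fin w → Derivation k K K := fun i => D i - x i • D i0
      have hD'reg : ∀ i, DKind true P (D' i) := by
        intro i
        change DerReg P (D' i)
        intro g hg
        have h1 : Ge P 0 (D i g) := hD i g hg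
        have h2 : Ge P 0 (D i0 g) := hD i0 g hg
        have h3 := (hxge i).mul h2
        rw [add_zero] at h3
        have h4 : (D' i) g = D i g - x i * D i0 g := rfl
        rw [h4]
        exact h1.sub h3
      have hD'log : ∀ i, DKind false P (D' i) := by
        intro i
        refine log_of_kill (hD'reg i) hu0 hu ?_
        have h4 : (D' i) u = D i u - x i * D i0 u := rfl
        rw [h4]
        simp only [hx]
        rw [div_mul_cancel₀ _ hi0', sub_self]
      let B : Matrix (Fin w) (Fin w) L := Matrix.of fun i j =>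
        if i = i0 then ev L (d j + 1) (fun m => D i0 (f j m)) (J j)
        else ev L (d j + 1) (fun m => D' i (f j m)) (J j)
      have hdet : (mat2 d f J D).det = B.det := by
        refine Matrix.det_eq_of_forall_row_eq_smul_add_const
          (fun i => if i = i0 then 0 else algebraMap K L (x i)) i0 (if_pos rfl) fun i j => ?_
        change ev L (d j + 1) (fun m => D i (f j m)) (J j) = B i j +
          (if i = i0 then 0 else algebraMap K L (x i)) * B i0 j
        simp only [B, Matrix.of_apply, if_true]
        by_cases h : i = i0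
        · rw [if_pos h, if_pos h, zero_mul, add_zero, h]
        · rw [if_neg h, if_neg h, ← ev_smul, ← ev_add]
          congr 1
          funext m
          have h4 : (D' i) (f j m) = D i (f j m) - x i * D i0 (f j m) := rfl
          rw [h4]
          ring
      rw [hdet]
      refine ge_det W _ _ (fun i j => β j - if i = i0 then (e : ℤ) else 0) (fun i j => ?_)
        (fun σ => ?_)
      · simp only [B, Matrix.of_apply]
        by_cases h : i = i0
        · rw [if_pos h, if_pos h]
          exact hreg _ (hD i0) j
        · rw [if_neg h, if_neg h, sub_zero]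
          exact hlog _ (hD'log i) j
      · rw [Finset.sum_sub_distrib]
        have h5 : ∑ j, (if σ j = i0 then (e : ℤ) else 0) = e := by
          rw [Finset.sum_eq_single (σ.symm i0)]
          · rw [if_pos (Equiv.apply_symm_apply σ i0)]
          · intro j _ hj
            rw [if_neg]
            intro h
            apply hj
            rw [← h, Equiv.symm_apply_apply]
          · intro h
            exact absurd (Finset.mem_univ _) h
        rw [h5]

end Pool.Agent.Y190.SC
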