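import Pool.Agent.Y190.SC.Ent
import Pool.Agent.Y216.LG.Inf
import Pool.Agent.Y190.SC.Stm

/-!
Pluricanonical forms from the roots of the irreducible factors of a polynomial over a function
field: no poles.
-/

set_option autoImplicit false

open FF Pool.Agent.W603.LV Pool.Agent.W602.GT Polynomial

namespace Pool.Agent.Y190.SC

open Pool.Agent.Y190.BV

variable {k K L : Type} [Field k] [Field K] [Field L] [Algebra k K] [Algebra k L] [Algebra K L]
  [IsScalarTower k K L]

/-- the sum of the pole orders over the conjugate places -/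
noncomputable def SS (K : Type) [Field K] [Algebra k K] [Algebra K L] [IsScalarTower k K L]
    [FiniteDimensional K L] (W : Place k L) (t : L) : ℤ :=
  ∑ s : L ≃ₐ[K] L, tau (W.comp (rs (k := k) s)) t

theorem SS_nonneg [FiniteDimensional K L] (W : Place k L) (t : L) : 0 ≤ SS K W t :=
  Finset.sum_nonneg fun _ _ => tau_nonneg _ _

theorem SS_conj [FiniteDimensional K L] (W : Place k L) (t : L) (σ : L ≃ₐ[K] L) :
    SS K W (σ t) = SS K W t := by
  unfold SS
  refine Fintype.sum_equiv (Equiv.mulRight σ) _ _ fun s => ?_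
  rfl

/-- the contact of a root is bounded by the contact of the polynomial -/
theorem vv_le_ct {W : Place k L} {P : Place k K} {e : ℕ} (hWP : Over W P e) {p : K[X]} {y : k}
    (h0 : p.eval (algebraMap k K y) ≠ 0) {t : L} (ht : aeval t p = 0) :
    vv W t y ≤ e * ct P p y := by
  obtain ⟨u, hu0, hu⟩ := P.surj
  set c0 := cnt P p with hc0
  have hpc0 : u ^ c0 ≠ 0 := zpow_ne_zero _ hu0
  have hpc : P.ord (u ^ c0) = c0 := by rw [P.ord_zpow, hu, mul_one]
  have hty : t ≠ algebraMap k L y := by
    rintro rfl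
    rw [IsScalarTower.algebraMap_apply k K L, aeval_algebraMap_apply, map_eq_zero,
      coe_aeval_eq_eval] at ht
    exact h0 ht
  have hct : 0 ≤ ct P p y := ct_nonneg P h0
  have he : (0 : ℤ) ≤ e := by positivity
  by_cases hv : 0 < vv W t y
  swap
  · push Not at hv
    exact hv.trans (mul_nonneg he hct)
  have htau := tau_of_vv W hty hv
  have hti : Ge W 0 t := by
    have := ge_tau W t
    rwa [htau, neg_zero] at this
  have hai : Ge W 0 (algebraMap k L y) := Ge.const _
  have hfi : ∀ j < p.natDegree + 1, Ge W 0 (algebraMap K L (p.coeff j / u ^ c0)) := by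
    intro j _
    have h1 : Ge P 0 (p.coeff j / u ^ c0) := by
      refine Ge.of_mul' hpc0 hpc ?_
      rw [mul_div_cancel₀ _ hpc0, zero_add]
      exact cnt_ge P p j
    have := over_ge hWP h1
    simpa using this
  have h2 := ge_ev_sub W _ hfi hti hai
  have hff : p.coeff = fun j => u ^ c0 * (p.coeff j / u ^ c0) := by
    funext j
    field_simp
  have het : ev L (p.natDegree + 1) (fun j => p.coeff j / u ^ c0) t = 0 := by
    have h1 : ev L (p.natDegree + 1) p.coeff t = 0 := by rw [ev_eq_aeval, ht]
    rw [hff, ev_smul] at h1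
    exact (mul_eq_zero.1 h1).resolve_left ((_root_.map_ne_zero _).2 hpc0)
  rw [het, zero_sub, ev_const] at h2
  have h3 := ge_neg_iff h2
  have hei : p.eval (algebraMap k K y) =
      u ^ c0 * ev K (p.natDegree + 1) (fun j => p.coeff j / u ^ c0) (algebraMap k K y) := by
    rw [← ev_eq_eval]
    conv_lhs => rw [hff]
    rw [ev_smul, Algebra.algebraMap_self, RingHom.id_apply]
  have hei0 : ev K (p.natDegree + 1) (fun j => p.coeff j / u ^ c0) (algebraMap k K y) ≠ 0 := by
    intro h
    apply h0
    rw [hei, h, mul_zero]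
  have h4 := h3.resolve_left ((_root_.map_ne_zero _).2 hei0)
  rw [hWP.2] at h4
  have h5 : P.ord (p.eval (algebraMap k K y)) = c0 +
      P.ord (ev K (p.natDegree + 1) (fun j => p.coeff j / u ^ c0) (algebraMap k K y)) := by
    rw [hei, P.ord_mul hpc0 hei0, hpc]
  unfold ct
  rw [h5]
  unfold vv
  rw [htau, add_zero]
  calc W.ord (t - algebraMap k L y) ≤ _ := h4
    _ = _ := by ring

variable [FiniteDimensional K L] [IsGalois K L]

/-- the content of the minimal polynomial of a root -/
theorem content_ge {W : Place k L} {P : Place k K} {e : ℕ} (hWP : Over W P e) {p : K[X]}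
    (hp : Irreducible p) (hm : p.Monic) (hsep : p.Separable) {t : L}
    (ht : aeval t p = 0) :
    - ((p.natDegree : ℤ) * SS K W t) ≤ Module.finrank K L * (e * cnt P p) := by
  classical
  have hmin : p = minpoly K t := minpoly.eq_of_irreducible_of_monic hp ht hm
  have hs : (p.map (algebraMap K L)).Splits := by
    rw [hmin]
    exact Normal.splits inferInstance t
  obtain ⟨r, hr, hroot, hcoef⟩ := exists_roots (L := L) p hsep hs
  obtain ⟨j0, hj0, hj1⟩ := cnt_att P hp.ne_zero
  have h1 : ∀ s : L ≃ₐ[K] L, - TT (W.comp (rs (k := k) s)) r ≤ e * cnt P p := by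
    intro s
    have h2 := ge_c0 (over_rs hWP s) hj0 hj1 r hcoef
    rw [hm.leadingCoeff, map_one, Place.ord_one, zero_sub] at h2
    exact h2
  have h2 := Finset.sum_le_sum fun s (_ : s ∈ (Finset.univ : Finset (L ≃ₐ[K] L))) => h1 s
  rw [Finset.sum_neg_distrib, Finset.sum_const, Finset.card_univ] at h2
  have h5 : Fintype.card (L ≃ₐ[K] L) = Module.finrank K L := by
    rw [← Nat.card_eq_fintype_card]
    exact IsGalois.card_aut_eq_finrank K L
  rw [h5, nsmul_eq_mul] at h2
  have h6 : ∑ s : L ≃ₐ[K] L, TT (W.comp (rs (k := k) s)) r = p.natDegree * SS K W t := by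
    unfold TT
    rw [Finset.sum_comm]
    have h7 : ∀ i, ∑ s : L ≃ₐ[K] L, tau (W.comp (rs (k := k) s)) (r i) = SS K W t := by
      intro i
      obtain ⟨σ, hσ⟩ := minpoly.exists_algEquiv_of_root (K := K) (x := r i) (y := t)
        (Algebra.IsAlgebraic.isAlgebraic t) (by rw [← hmin]; exact hroot i)
      rw [← hσ, SS_conj]
      rfl
    rw [Finset.sum_congr rfl fun i _ => h7 i, Finset.sum_const, Finset.card_univ,
      Fintype.card_fin, nsmul_eq_mul]
  rw [h6] at h2
  exact h2

end Pool.Agent.Y190.SC
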