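import Pool.Agent.Y190.SC.Main

/-!
Finite morphisms to the space of polynomials.
-/

set_option autoImplicit false

open MvPolynomial Metric Filter Topology

namespace Pool.Agent.Y190.SC

open Pool.Agent.W602.Cov Pool.Agent.W602.Cov.Cover Pool.Agent.W602.Cov.R Pool.Agent.W603.BP
open Pool.Agent.W601.PH Pool.Agent.W602.GT Pool.Agent.Y216 Pool.Agent.Y216.LG
open Pool.Agent.TH152.HY hiding aeval_inr main
open Pool.Agent.Y191 (SemiAbelianOff semi_of_brody lf)

variable {N n q : ℕ}

/-- The morphism from `X` to `P^n` (the second projection) is finite: for all points of `X` over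
fields, the ratios of the coordinates `x` are algebraic over the field which is generated by the
ratios of the coordinates `y` (the fibres over all, not necessarily closed, points are finite). -/
def FiniteOver (X : BiSet N n) : Prop :=
  ∀ (L : Type) [Field L] [Algebra ℂ L] (x : Fin (N + 1) → L) (y : Fin (n + 1) → L), X.Mem x y →
    ∀ i j, x j ≠ 0 → IsAlgebraic
      (IntermediateField.adjoin ℂ {f : L | ∃ i j, y j ≠ 0 ∧ f = y i / y j}) (x i / x j)

/-- the exceptional set: the union of the hyperplanes -/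
noncomputable def hyp (N n : ℕ) {q : ℕ} (a : Fin q → ℂ) : BiPoly N n :=
  rename Sum.inr (∏ i : Fin q, lfP n (a i))

theorem aeval_hyp (a : Fin q → ℂ) {L : Type} [Field L] [Algebra ℂ L] (x : Fin (N + 1) → L)
    (y : Fin (n + 1) → L) : aeval (Sum.elim x y) (hyp N n a) =
      ∏ i, lf (fun l : Fin (n + 1) => a i ^ (l : ℕ)) y := by
  unfold hyp
  rw [aeval_rename]
  change aeval y (∏ i : Fin q, lfP n (a i)) = _
  rw [map_prod]
  exact Finset.prod_congr rfl fun i _ => aeval_lfP _ _

section ultra

variable {U : Ultrafilter ℕ}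

/-- the ultrapower of the complex numbers -/
abbrev UP (U : Ultrafilter ℕ) : Type := Filter.Germ (U : Filter ℕ) ℂ

/-- the projection to the ultrapower -/
noncomputable def prU (U : Ultrafilter ℕ) : (ℕ → ℂ) →+* UP U :=
  Filter.Germ.coeRingHom (U : Filter ℕ)

noncomputable instance instAlgU (U : Ultrafilter ℕ) : Algebra ℂ (UP U) :=
  ((prU U).comp (algebraMap ℂ (ℕ → ℂ))).toAlgebra

theorem algU (U : Ultrafilter ℕ) (c : ℂ) : algebraMap ℂ (UP U) c = prU U (fun _ => c) := rfl

/-- the projection, as a homomorphism of algebras -/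
noncomputable def prA (U : Ultrafilter ℕ) : (ℕ → ℂ) →ₐ[ℂ] UP U :=
  { prU U with commutes' := fun _ => rfl }

theorem prA_eq (f g : ℕ → ℂ) : prA U f = prA U g ↔ ∀ᶠ k in (U : Filter ℕ), f k = g k := by
  change ((f : UP U) = (g : UP U)) ↔ _
  exact Filter.Germ.coe_eq

theorem aeval_prA {σ : Type} (G : MvPolynomial σ ℂ) (g : σ → ℕ → ℂ) :
    aeval (fun s => prA U (g s)) G = prA U (fun k => eval (fun s => g s k) G) := by
  have h1 : aeval (fun s => prA U (g s)) G = prA U (aeval g G) := by
    have e : (prA U).comp (aeval g) = aeval (fun s => prA U (g s)) := by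
      apply MvPolynomial.algHom_ext
      intro i
      simp
    rw [← e]
    rfl
  rw [h1]
  congr 1
  funext k
  let φ : (ℕ → ℂ) →ₐ[ℂ] ℂ := Pi.evalAlgHom ℂ (fun _ : ℕ => ℂ) k
  have e : φ.comp (aeval g) = aeval (fun s => g s k) := by
    apply MvPolynomial.algHom_ext
    intro i
    simp [φ]
  have h3 := congrArg (fun ψ : MvPolynomial σ ℂ →ₐ[ℂ] ℂ => ψ G) e
  simp only [AlgHom.comp_apply] at h3
  rw [MvPolynomial.aeval_eq_eval] at h3
  exact h3

end ultra

theorem mem_scale {X : BiSet N n} {u : Fin (N + 1) → ℂ} {v : Fin (n + 1) → ℂ} (h : X.Mem u v)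
    {r : ℂ} (hr : r ≠ 0) : X.Mem (r • u) v := by
  refine ⟨smul_ne_zero hr h.1, h.2.1, fun G hG => ?_⟩
  obtain ⟨a, b, hab⟩ := (conv X).hom G hG
  have h1 := hab r 1 u v
  rw [one_smul] at h1
  have h2 : Pool.Agent.W601.SM.ev2 u v G = 0 := h.2.2 G hG
  rw [h2, mul_zero] at h1
  exact h1

/-- finite fibres -/
theorem FiniteOver.fib {X : BiSet N n} (hfin : FiniteOver X) {v : Fin (n + 1) → ℂ} (hv : v ≠ 0) :
    ∃ T : Finset (Fin (N + 1) → ℂ), ∀ u, X.Mem u v → ∃ t ∈ T, ∃ c : ℂ, u = c • t := by
  classical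
  let S : Fin (N + 1) → Set (Fin (N + 1) → ℂ) := fun j => {u | X.Mem u v ∧ u j = 1}
  have hS : ∀ j, (S j).Finite := by
    intro j
    by_contra hinf
    have h1 : ∃ i, ((fun u : Fin (N + 1) → ℂ => u i) '' S j).Infinite := by
      by_contra hcon
      push Not at hcon
      apply hinf
      refine (Set.Finite.pi' fun i => hcon i).subset ?_
      intro u hu i
      exact ⟨u, hu, rfl⟩
    obtain ⟨i, hi⟩ := h1
    let em := hi.natEmbedding
    have hu : ∀ k, ∃ u ∈ S j, u i = (em k : ℂ) := fun k => (em k).2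
    choose u hu1 hu2 using hu
    let U : Ultrafilter ℕ := Filter.hyperfilter ℕ
    let x : Fin (N + 1) → UP U := fun l => prA U (fun k => u k l)
    let y : Fin (n + 1) → UP U := fun l => prA U (fun _ => v l)
    have hxj : x j = 1 := by
      change prA U (fun k => u k j) = 1
      rw [← map_one (prA U)]
      congr 1
      funext k
      exact (hu1 k).2
    have hmem : X.Mem x y := by
      refine ⟨?_, ?_, fun G hG => ?_⟩
      · intro h0
        have := congrFun h0 j
        rw [hxj] at this
        exact one_ne_zero this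
      · intro h0
        apply hv
        funext l
        have h2 := congrFun h0 l
        have h3 : algebraMap ℂ (UP U) (v l) = 0 := h2
        exact (map_eq_zero _).1 h3
      · have e : (Sum.elim x y) = fun s => prA U
            (fun k => (Sum.elim (u k) v : Fin (N + 1) ⊕ Fin (n + 1) → ℂ) s) := by
          funext s
          cases s <;> rfl
        rw [e, aeval_prA]
        have e2 : (fun k => eval (fun s => (Sum.elim (u k) v : Fin (N + 1) ⊕ Fin (n + 1) → ℂ) s)
            G) = 0 := by
          funext k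
          exact (hu1 k).1.2.2 G hG
        rw [e2, map_zero]
    have h2 := hfin (UP U) x y hmem i j (by rw [hxj]; exact one_ne_zero)
    rw [hxj, div_one] at h2
    have hle : IntermediateField.adjoin ℂ {f : UP U | ∃ i j, y j ≠ 0 ∧ f = y i / y j} = ⊥ := by
      rw [eq_bot_iff, IntermediateField.adjoin_le_iff]
      rintro _ ⟨i', j', -, rfl⟩
      refine IntermediateField.mem_bot.2 ⟨v i' / v j', ?_⟩
      rw [map_div₀]
      rfl
    rw [hle] at h2
    have h3 : IsAlgebraic ℂ (x i) := by
      have : Algebra.IsAlgebraic ℂ (⊥ : IntermediateField ℂ (UP U)) := inferInstance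
      exact IsAlgebraic.restrictScalars ℂ h2
    obtain ⟨c, hc⟩ := Pool.Agent.W602.GT.const_of_algebraic h3
    have h4 : prA U (fun k => u k i) = prA U (fun _ => c) := hc
    rw [prA_eq] at h4
    have h5 : {k | u k i = c}.Finite := by
      refine Set.Subsingleton.finite ?_
      intro k hk l hl
      have h6 : (em k : ℂ) = em l := by
        rw [← hu2, ← hu2]
        exact (show u k i = c from hk).trans (show u l i = c from hl).symm
      exact em.injective (Subtype.ext h6)
    have h6 : {k | u k i = c}ᶜ ∈ (U : Filter ℕ) := by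
      apply Filter.hyperfilter_le_cofinite
      rw [Filter.mem_cofinite, compl_compl]
      exact h5
    have h7 := Filter.inter_mem h4 h6
    have h8 : {k | u k i = c} ∩ {k | u k i = c}ᶜ ∈ (U : Filter ℕ) := h7
    rw [Set.inter_compl_self] at h8
    exact U.neBot.ne (Filter.empty_mem_iff_bot.1 h8)
  refine ⟨Finset.univ.biUnion fun j => (hS j).toFinset, fun u hu => ?_⟩
  obtain ⟨j, hj⟩ := Function.ne_iff.mp hu.1
  have hj' : u j ≠ 0 := hj
  refine ⟨(u j)⁻¹ • u, ?_, u j, ?_⟩
  · rw [Finset.mem_biUnion]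
    refine ⟨j, Finset.mem_univ _, ?_⟩
    rw [Set.Finite.mem_toFinset]
    refine ⟨mem_scale hu (inv_ne_zero hj'), ?_⟩
    rw [Pi.smul_apply, smul_eq_mul, inv_mul_cancel₀ hj']
  · rw [smul_smul, mul_inv_cancel₀ hj', one_smul]

/-- the function field of a subvariety -/
theorem FiniteOver.alg {X : BiSet N n} (hfin : FiniteOver X) {L : Type} [Field L] [Algebra ℂ L]
    {x : Fin (N + 1) → L} {y : Fin (n + 1) → L} (hmem : X.Mem x y)
    (hgen : IntermediateField.adjoin ℂ
      ({f : L | ∃ i j, x j ≠ 0 ∧ f = x i / x j} ∪ {f : L | ∃ i j, y j ≠ 0 ∧ f = y i / y j}) = ⊤) :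
    Algebra.IsAlgebraic (IntermediateField.adjoin ℂ {f : L | ∃ i j, y j ≠ 0 ∧ f = y i / y j}) L := by
  set F := IntermediateField.adjoin ℂ {f : L | ∃ i j, y j ≠ 0 ∧ f = y i / y j} with hF
  constructor
  intro f
  have hle : IntermediateField.adjoin ℂ
      ({f : L | ∃ i j, x j ≠ 0 ∧ f = x i / x j} ∪ {f : L | ∃ i j, y j ≠ 0 ∧ f = y i / y j}) ≤
      (algebraicClosure F L).restrictScalars ℂ := by
    rw [IntermediateField.adjoin_le_iff]
    rintro f (⟨i, j, hj, rfl⟩ | hf)
    · exact mem_algebraicClosure_iff.2 (hfin L x y hmem i j hj)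
    · have h1 : f ∈ F := IntermediateField.subset_adjoin ℂ _ hf
      have h2 : f = algebraMap F L ⟨f, h1⟩ := rfl
      rw [h2]
      exact mem_algebraicClosure_iff.2 (isAlgebraic_algebraMap _)
  rw [hgen] at hle
  have h1 : f ∈ (algebraicClosure F L).restrictScalars ℂ := hle IntermediateField.mem_top
  exact mem_algebraicClosure_iff.1 h1

/-- **The main theorem for finite morphisms.** -/
theorem main_fin (hAN : S_AN) {a : Fin q → ℂ} (ha : Function.Injective a) {M : ℕ} {c : Fin q → ℕ}
    (hbound : n * ∑ i, c i + 2 * n * M < q * M) {X D : BiSet N n} (hR : RamifiedSum X D a M c)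
    (hfin : FiniteOver X) :
    PicardOff X D (hyp N n a) ∧ BrodyOff X D (hyp N n a) ∧ SemiAbelianOff X D (hyp N n a) ∧
      LangOff X D (hyp N n a) := by
  classical
  have hLang : LangOff X D (hyp N n a) := by
    intro L _ _ x' y' w hmem _ hne hgen htr hw
    rw [aeval_hyp] at hne
    have h3 := hfin.alg hmem hgen
    have h4 : Algebra.IsAlgebraic (Algebra.adjoin ℂ {z | ∃ i j, z = (pol y').coeff i /
        (pol y').coeff j}) L := by
      rw [← IntermediateField.isAlgebraic_adjoin_iff_top]
      refine Pool.Agent.TH152.HY.alg_mono ?_ h3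
      rw [IntermediateField.adjoin_le_iff]
      rintro _ ⟨i, j, hj, rfl⟩
      exact IntermediateField.subset_adjoin ℂ _ ⟨(i : ℕ), (j : ℕ), by
        rw [coeff_pol, coeff_pol]⟩
    have h5 : ∀ i, (pol y').eval (algebraMap ℂ L (a i)) ≠ 0 := by
      intro i
      rw [eval_pol_eq]
      exact (Finset.prod_ne_zero_iff.1 hne) i (Finset.mem_univ i)
    exact core_sum hw htr a ha hbound (pol y') (pol_ne hmem.2.1) (natDegree_pol_le y') h4 h5 _
      fun P _ hP => hR.sumC hmem h5 hP
  have hPic : PicardOff X D (hyp N n a) := by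
    rintro u v huv ⟨z0, hz0, hne⟩
    have hu := fun j => an_of_diffOn huv.diffu j
    have hmem : ∀ z ∈ PB 1, QMem X D (u z) (v z) := fun z hz => huv.mem z (mem_disc.mpr hz)
    have hne' : aeval (Sum.elim (u z0) (v z0)) (hyp N n a) ≠ 0 := hne
    rw [aeval_hyp] at hne'
    have hE : Extends v := disc_extends hAN ha hbound hR huv (mem_disc.mp hz0) fun i => by
      have h1 := (Finset.prod_ne_zero_iff.1 hne') i (Finset.mem_univ i)
      have h2 : aeval (v z0) (lfP n (a i)) ≠ 0 := by
        rw [aeval_lfP]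
        exact h1
      exact h2
    exact ⟨extends_lift (X := conv X) hu (fun z hz => (hmem z hz).1) hE (mem_disc.mp hz0)
      (hfin.fib (hmem z0 (mem_disc.mp hz0)).1.2.1), hE⟩
  exact ⟨hPic, brody_of_picard hPic, semi_of_brody (brody_of_picard hPic), hLang⟩

end Pool.Agent.Y190.SC
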