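import Pool.Agent.Y190.SC.Est

/-!
The forms have no poles.
-/

set_option autoImplicit false

open FF Pool.Agent.W603.LV Pool.Agent.W602.GT Polynomial

namespace Pool.Agent.Y190.SC

open Pool.Agent.Y190.BV

variable {k K L : Type} [Field k] [Field K] [Field L] [Algebra k K] [Algebra k L] [Algebra K L]
  [IsScalarTower k K L]

/-- Irreducible polynomials with multiplicities and a family of tuples of their roots. -/
structure Fam (K L : Type) [Field K] [Field L] [Algebra K L] (κ ι : Type) [Fintype κ] [Fintype ι]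
    (w : ℕ) where
  p : κ → K[X]
  irr : ∀ x, Irreducible (p x)
  mon : ∀ x, (p x).Monic
  sep : ∀ x, (p x).Separable
  e : κ → ℕ
  pos : ∀ x, 1 ≤ e x
  J : ι → Fin w → L
  c : ι → Fin w → κ
  root : ∀ l j, aeval (J l j) (p (c l j)) = 0
  base : κ → L
  broot : ∀ x, aeval (base x) (p x) = 0
  cover : ∀ F : κ → ℤ, (∀ x, 0 ≤ F x) →
    ∑ x, ((e x * (p x).natDegree : ℕ) : ℤ) * F x ≤ ∑ l, ∑ j, F (c l j)

variable {κ ι : Type} [Fintype κ] [Fintype ι] {w q : ℕ}

/-- the polynomial -/
noncomputable def Fam.H (T : Fam K L κ ι w) : K[X] := ∏ x, T.p x ^ T.e x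

/-- the matrix -/
noncomputable def Fam.mat (T : Fam K L κ ι w) (l : ι) (D : Fin w → Derivation k K K) :
    Matrix (Fin w) (Fin w) L :=
  mat2 (fun j => (T.p (T.c l j)).natDegree) (fun j => (T.p (T.c l j)).coeff) (T.J l) D

/-- the denominator -/
noncomputable def Fam.den (T : Fam K L κ ι w) (M : ℕ) (a : Fin q → k) : K :=
  ∏ l, ∏ j, ∏ i, (Algebra.norm K (T.J l j - algebraMap k L (a i))) ^ M

/-- the forms -/
noncomputable def Fam.phi (T : Fam K L κ ι w) (M : ℕ) (c : Fin q → ℕ) (a : Fin q → k) (ψ : K)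
    (D : Fin w → Derivation k K K) : K :=
  ψ / T.den M a * (∏ i, (T.H.eval (algebraMap k K (a i))) ^ c i) ^
    (Fintype.card ι * Module.finrank K L) * (∏ l, Algebra.norm K (T.mat l D).det) ^ M

omit [IsScalarTower k K L] in
theorem Fam.phi_pluri (T : Fam K L κ ι w) (M : ℕ) (c : Fin q → ℕ) (a : Fin q → k) (ψ : K) :
    IsPluri (M * (Fintype.card ι * Module.finrank K L)) (T.phi M c a ψ) := by
  intro B D
  unfold Fam.phi
  have h1 : ∀ l, Algebra.norm K (T.mat l (fun i => ∑ j, B i j • D j)).det =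
      B.det ^ Module.finrank K L * Algebra.norm K (T.mat l D).det := by
    intro l
    unfold Fam.mat
    rw [mat2_mul, Matrix.det_mul, map_mul]
    congr 1
    have : (B.map (algebraMap K L)).det = algebraMap K L B.det := by
      rw [RingHom.map_det]; rfl
    rw [this, Algebra.norm_algebraMap]
  rw [Finset.prod_congr rfl fun l _ => h1 l, Finset.prod_mul_distrib, Finset.prod_const,
    Finset.card_univ, mul_pow, ← pow_mul, ← pow_mul,
    show Module.finrank K L * (Fintype.card ι * M) = M * (Fintype.card ι * Module.finrank K L) by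
      ring]
  ring

variable [FiniteDimensional K L] [IsGalois K L]

theorem Fam.SS_eq (T : Fam K L κ ι w) (W : Place k L) {t : L} {x : κ} (ht : aeval t (T.p x) = 0) :
    SS K W t = SS K W (T.base x) := by
  have hmin : T.p x = minpoly K (T.base x) :=
    minpoly.eq_of_irreducible_of_monic (T.irr x) (T.broot x) (T.mon x)
  obtain ⟨σ, hσ⟩ := minpoly.exists_algEquiv_of_root (K := K) (x := t) (y := T.base x)
    (Algebra.IsAlgebraic.isAlgebraic _) (by rw [← hmin]; exact ht)
  rw [← hσ, SS_conj]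

omit [FiniteDimensional K L] [IsGalois K L] [IsScalarTower k K L] [Algebra k L] in
theorem Fam.H_eval (T : Fam K L κ ι w) {y : k}
    (h0 : ∀ x, (T.p x).eval (algebraMap k K y) ≠ 0) : T.H.eval (algebraMap k K y) ≠ 0 := by
  unfold Fam.H
  rw [eval_prod]
  refine Finset.prod_ne_zero_iff.2 fun x _ => ?_
  rw [eval_pow]
  exact pow_ne_zero _ (h0 x)

omit [FiniteDimensional K L] [IsGalois K L] [IsScalarTower k K L] [Algebra k L] in
theorem Fam.ct_H [Infinite k] (T : Fam K L κ ι w) (P : Place k K) {y : k}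
    (h0 : ∀ x, (T.p x).eval (algebraMap k K y) ≠ 0) :
    ct P T.H y = ∑ x, (T.e x : ℤ) * ct P (T.p x) y := by
  unfold Fam.H
  rw [ct_prod P _ _ fun x _ => by
    rw [eval_pow]
    exact pow_ne_zero _ (h0 x)]
  exact Finset.sum_congr rfl fun x _ => ct_pow P (h0 x) _

omit [FiniteDimensional K L] [IsGalois K L] [IsScalarTower k K L] [Algebra k L] in
theorem Fam.cnt_H [Infinite k] (T : Fam K L κ ι w) (P : Place k K) :
    cnt P T.H = ∑ x, (T.e x : ℤ) * cnt P (T.p x) := by
  classical
  have hpow : ∀ (F : K[X]) (n : ℕ), F ≠ 0 → cnt P (F ^ n) = n * cnt P F := by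
    intro F n hF
    induction n with
    | zero => rw [pow_zero, cnt_one, Nat.cast_zero, zero_mul]
    | succ n ih =>
      rw [pow_succ, cnt_mul P (pow_ne_zero _ hF) hF, ih]
      push_cast
      ring
  have hprod : ∀ s : Finset κ, cnt P (∏ x ∈ s, T.p x ^ T.e x) =
      ∑ x ∈ s, (T.e x : ℤ) * cnt P (T.p x) := by
    intro s
    induction s using Finset.induction_on with
    | empty => rw [Finset.prod_empty, Finset.sum_empty, cnt_one]
    | insert a s ha ih =>
      rw [Finset.prod_insert ha, Finset.sum_insert ha,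
        cnt_mul P (pow_ne_zero _ (T.irr a).ne_zero)
          (Finset.prod_ne_zero_iff.2 fun x _ => pow_ne_zero _ (T.irr x).ne_zero), ih,
        hpow _ _ (T.irr a).ne_zero]
  exact hprod Finset.univ

/-- **The forms have no poles.** -/
theorem Fam.ge_phi [Infinite k] (T : Fam K L κ ι w) {W : Place k L} {P : Place k K} {e0 : ℕ}
    (hWP : Over W P e0) {b : Bool} (D : Fin w → Derivation k K K) (hD : ∀ i, DKind b P (D i))
    (a : Fin q → k) (ha : Function.Injective a) {M : ℕ} {c : Fin q → ℕ}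
    (h0 : ∀ x i, (T.p x).eval (algebraMap k K (a i)) ≠ 0)
    (hram : b = true → SumC M c a T.H P)
    (hbound : ∀ x, Fintype.card ι * ∑ i, c i + 2 * (T.p x).natDegree * M < q * M)
    (ψ : K) (hψ : Ge W (- ∑ x, ((T.e x * (T.p x).natDegree : ℕ) : ℤ) * SS K W (T.base x))
      (algebraMap K L ψ)) :
    Ge W 0 (algebraMap K L (T.phi M c a ψ D)) := by
  classical
  have he0 : (0 : ℤ) < e0 := by exact_mod_cast hWP.1
  have hJa : ∀ l j i, T.J l j ≠ algebraMap k L (a i) := by
    intro l j i h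
    have h1 := T.root l j
    rw [h, IsScalarTower.algebraMap_apply k K L, aeval_algebraMap_apply, map_eq_zero,
      coe_aeval_eq_eval] at h1
    exact h0 _ i h1
  have h5 : Fintype.card (L ≃ₐ[K] L) = Module.finrank K L := by
    rw [← Nat.card_eq_fintype_card]
    exact IsGalois.card_aut_eq_finrank K L
  set g : ℤ := (Module.finrank K L : ℤ) with hg
  set V : (L ≃ₐ[K] L) → Place k L := fun s => W.comp (rs (k := k) s) with hV
  set dd : ι → Fin w → ℕ := fun l j => (T.p (T.c l j)).natDegree with hdd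
  set β : (L ≃ₐ[K] L) → ι → Fin w → ℤ := fun s l j =>
    bet (V s) e0 (cnt P (T.p (T.c l j))) (dd l j) a (T.J l j) with hβ
  set NE : (L ≃ₐ[K] L) → ι → ℤ := fun s l =>
    if b = true ∧ ∃ j i, 0 < vv (V s) (T.J l j) (a i) then (e0 : ℤ) else 0 with hNE
  -- the determinants
  have hdet : ∀ s l, Ge (V s) (∑ j, β s l j - NE s l) (T.mat l D).det := by
    intro s l
    refine det_ge (over_rs hWP s) (dd l) (fun j => (T.p (T.c l j)).coeff)
      (fun j => cnt P (T.p (T.c l j))) (fun j m _ => cnt_ge P _ m) a ha (fun j i => ?_)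
      (T.J l) (fun j => ?_) b D hD
    · rw [ev_eq_eval]
      exact h0 _ i
    · rw [ev_eq_aeval]
      exact T.root l j
  have hD2 : Ge W (∑ l, ∑ s, (∑ j, β s l j - NE s l))
      (∏ l, algebraMap K L (Algebra.norm K (T.mat l D).det)) := by
    refine Ge.prod _ _ _ fun l _ => ?_
    exact ge_norm _ fun s => hdet s l
  -- the denominator
  have hN : ∀ l j i, Algebra.norm K (T.J l j - algebraMap k L (a i)) ≠ 0 := fun l j i =>
    norm_ne (sub_ne_zero.2 (hJa l j i))
  have hden0 : T.den M a ≠ 0 := Finset.prod_ne_zero_iff.2 fun l _ =>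
    Finset.prod_ne_zero_iff.2 fun j _ => Finset.prod_ne_zero_iff.2 fun i _ => pow_ne_zero _ (hN l j i)
  have hden : W.ord (algebraMap K L (T.den M a)) =
      ∑ l, ∑ j, ∑ i, (M : ℤ) * ∑ s, (V s).ord (T.J l j - algebraMap k L (a i)) := by
    unfold Fam.den
    rw [map_prod, ord_prod' W _ _ fun l _ => by
      rw [Ne, map_eq_zero]
      exact Finset.prod_ne_zero_iff.2 fun j _ =>
        Finset.prod_ne_zero_iff.2 fun i _ => pow_ne_zero _ (hN l j i)]
    refine Finset.sum_congr rfl fun l _ => ?_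
    rw [map_prod, ord_prod' W _ _ fun j _ => by
      rw [Ne, map_eq_zero]
      exact Finset.prod_ne_zero_iff.2 fun i _ => pow_ne_zero _ (hN l j i)]
    refine Finset.sum_congr rfl fun j _ => ?_
    rw [map_prod, ord_prod' W _ _ fun i _ => by
      rw [Ne, map_eq_zero]
      exact pow_ne_zero _ (hN l j i)]
    refine Finset.sum_congr rfl fun i _ => ?_
    rw [map_pow, W.ord_pow, ord_norm (sub_ne_zero.2 (hJa l j i))]
  -- the values
  have hHe : ∀ i, T.H.eval (algebraMap k K (a i)) ≠ 0 := fun i => T.H_eval fun x => h0 x i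
  have hval : Ge W (e0 * ∑ i, (c i : ℤ) * P.ord (T.H.eval (algebraMap k K (a i))))
      (algebraMap K L (∏ i, (T.H.eval (algebraMap k K (a i))) ^ c i)) := by
    right
    rw [hWP.2, ord_prod' P _ _ fun i _ => pow_ne_zero _ (hHe i)]
    apply le_of_eq
    congr 1
    exact Finset.sum_congr rfl fun i _ => (P.ord_pow _ _).symm
  unfold Fam.phi
  rw [map_mul, map_mul, map_div₀, map_pow, map_pow,
    map_prod (algebraMap K L) (fun l => Algebra.norm K (T.mat l D).det)]
  have h1 := ge_div ((_root_.map_ne_zero (algebraMap K L)).2 hden0) hψ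
  have hval2 := hval.pow (Fintype.card ι * Module.finrank K L)
  refine ((h1.mul hval2).mul (hD2.pow M)).mono ?_
  rw [hden]
  -- the contacts
  have hct : ∀ i, 0 ≤ ct P T.H (a i) := fun i => ct_nonneg P (hHe i)
  have hcs : 0 ≤ ∑ i, (c i : ℤ) * ct P T.H (a i) :=
    Finset.sum_nonneg fun i _ => mul_nonneg (Int.natCast_nonneg _) (hct i)
  set h : ℤ := (Fintype.card ι : ℤ) with hh
  have hg0 : 0 ≤ g := Int.natCast_nonneg _
  have hh0 : 0 ≤ h := Int.natCast_nonneg _
  have hnear : (M : ℤ) * ∑ l, ∑ s, NE s l ≤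
      h * g * (e0 * ∑ i, (c i : ℤ) * ct P T.H (a i)) := by
    by_cases hex : b = true ∧ ∃ s l j i, 0 < vv (V s) (T.J l j) (a i)
    · obtain ⟨hb, s, l, j, i, hv⟩ := hex
      have h2 := vv_le_ct (over_rs hWP s) (h0 (T.c l j) i) (T.root l j)
      have h3 : 0 < ct P (T.p (T.c l j)) (a i) := by
        by_contra hcon
        push Not at hcon
        have : (e0 : ℤ) * ct P (T.p (T.c l j)) (a i) ≤ 0 :=
          mul_nonpos_of_nonneg_of_nonpos he0.le hcon
        have hv' : 0 < vv (W.comp (rs (k := k) s)) (T.J l j) (a i) := hv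
        omega
      have h4 : 0 < ct P T.H (a i) := by
        rw [T.ct_H P fun x => h0 x i]
        have h5 : (T.e (T.c l j) : ℤ) * ct P (T.p (T.c l j)) (a i) ≤
            ∑ x, (T.e x : ℤ) * ct P (T.p x) (a i) :=
          Finset.single_le_sum (f := fun x => (T.e x : ℤ) * ct P (T.p x) (a i))
            (fun x _ => mul_nonneg (Int.natCast_nonneg _) (ct_nonneg P (h0 x i)))
            (Finset.mem_univ _)
        have h6 : (1 : ℤ) ≤ T.e (T.c l j) := by exact_mod_cast T.pos _
        have h7 : 0 < (T.e (T.c l j) : ℤ) * ct P (T.p (T.c l j)) (a i) := by positivity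
        linarith
      have h8 : (M : ℤ) ≤ ∑ i, (c i : ℤ) * ct P T.H (a i) := by
        rcases hram hb with h9 | h9
        · rw [h9 i] at h4
          omega
        · exact h9
      have h10 : ∑ l, ∑ s, NE s l ≤ h * (g * e0) := by
        calc ∑ l, ∑ s, NE s l ≤ ∑ _l : ι, ∑ _s : L ≃ₐ[K] L, (e0 : ℤ) := by
              refine Finset.sum_le_sum fun l _ => Finset.sum_le_sum fun s _ => ?_
              simp only [hNE]
              split_ifs
              · exact le_rfl
              · exact he0.le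
          _ = h * (g * e0) := by
              simp only [Finset.sum_const, Finset.card_univ, h5, nsmul_eq_mul, hh, hg]
      calc (M : ℤ) * ∑ l, ∑ s, NE s l ≤ M * (h * (g * e0)) :=
            mul_le_mul_of_nonneg_left h10 (Int.natCast_nonneg _)
        _ = h * g * (e0 * M) := by ring
        _ ≤ h * g * (e0 * ∑ i, (c i : ℤ) * ct P T.H (a i)) := by
            apply mul_le_mul_of_nonneg_left _ (mul_nonneg hh0 hg0)
            exact mul_le_mul_of_nonneg_left h8 he0.le
    · have h2 : ∑ l, ∑ s, NE s l = 0 := by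
        refine Finset.sum_eq_zero fun l _ => Finset.sum_eq_zero fun s _ => ?_
        simp only [hNE]
        rw [if_neg]
        rintro ⟨hb, j, i, hv⟩
        exact hex ⟨hb, s, l, j, i, hv⟩
      rw [h2, mul_zero]
      exact mul_nonneg (mul_nonneg hh0 hg0) (mul_nonneg he0.le hcs)
  -- the columns
  have hcol : ∀ l j, ((q : ℤ) - 2 * dd l j) * SS K W (T.base (T.c l j)) ≤
      ∑ s, (β s l j - ∑ i, (V s).ord (T.J l j - algebraMap k L (a i))) := by
    intro l j
    have h2 : ∀ s, β s l j - ∑ i, (V s).ord (T.J l j - algebraMap k L (a i)) =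
        e0 * cnt P (T.p (T.c l j)) + ((q : ℤ) - dd l j) * tau (V s) (T.J l j) := by
      intro s
      simp only [hβ]
      unfold bet vv
      rw [Finset.sum_add_distrib, Finset.sum_const, Finset.card_univ, Fintype.card_fin,
        nsmul_eq_mul]
      ring
    rw [Finset.sum_congr rfl fun s _ => h2 s, Finset.sum_add_distrib, Finset.sum_const,
      Finset.card_univ, h5, nsmul_eq_mul, ← Finset.mul_sum]
    have h3 : ∑ s, tau (V s) (T.J l j) = SS K W (T.base (T.c l j)) := by
      rw [← T.SS_eq W (T.root l j)]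
      rfl
    have h4 := content_ge hWP (T.irr (T.c l j)) (T.mon _) (T.sep _) (T.root l j)
    rw [T.SS_eq W (T.root l j)] at h4
    rw [h3]
    have h6 : ((q : ℤ) - 2 * dd l j) * SS K W (T.base (T.c l j)) =
      - ((dd l j : ℤ) * SS K W (T.base (T.c l j))) +
        ((q : ℤ) - dd l j) * SS K W (T.base (T.c l j)) := by ring
    rw [h6]
    exact add_le_add_left h4 _
  have hSS : ∀ x, 0 ≤ SS K W (T.base x) := fun x => SS_nonneg W _
  have hM : 0 < M ∨ IsEmpty κ := by
    by_cases hκ : IsEmpty κ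
    · exact Or.inr hκ
    · left
      rw [not_isEmpty_iff] at hκ
      obtain ⟨x⟩ := hκ
      have := hbound x
      rcases Nat.eq_zero_or_pos M with h | h
      · rw [h, mul_zero, mul_zero] at this
        omega
      · exact h
  have hbz : ∀ x, h * ∑ i, (c i : ℤ) + 2 * (T.p x).natDegree * M + 1 ≤ (q : ℤ) * M := by
    intro x
    have := hbound x
    rw [hh]
    exact_mod_cast this
  have hqd : ∀ x, 0 ≤ (q : ℤ) - 2 * (T.p x).natDegree := by
    intro x
    by_contra hcon
    push Not at hcon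
    have h1 := hbz x
    have h2 : 0 ≤ h * ∑ i, (c i : ℤ) := mul_nonneg hh0 (Finset.sum_nonneg fun i _ =>
      Int.natCast_nonneg _)
    have h3 : ((q : ℤ) - 2 * (T.p x).natDegree) * M ≤ 0 :=
      mul_nonpos_of_nonpos_of_nonneg hcon.le (Int.natCast_nonneg _)
    have h4 : ((q : ℤ) - 2 * (T.p x).natDegree) * M = q * M - 2 * (T.p x).natDegree * M := by ring
    omega
  have hcov := T.cover (fun x => ((q : ℤ) - 2 * (T.p x).natDegree) * SS K W (T.base x))
    fun x => mul_nonneg (hqd x) (hSS x)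
  -- the columns, summed
  have hsum1 : ∑ l, ∑ j, ((q : ℤ) - 2 * dd l j) * SS K W (T.base (T.c l j)) ≤
      ∑ l, ∑ j, ∑ s, (β s l j - ∑ i, (V s).ord (T.J l j - algebraMap k L (a i))) :=
    Finset.sum_le_sum fun l _ => Finset.sum_le_sum fun j _ => hcol l j
  have hA : ∑ l, ∑ s, (∑ j, β s l j - NE s l) = ∑ l, ∑ j, ∑ s, β s l j - ∑ l, ∑ s, NE s l := by
    rw [← Finset.sum_sub_distrib]
    refine Finset.sum_congr rfl fun l _ => ?_
    rw [Finset.sum_sub_distrib, Finset.sum_comm]
  have hB : ∑ l, ∑ j, ∑ i, (M : ℤ) * ∑ s, (V s).ord (T.J l j - algebraMap k L (a i)) =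
      M * ∑ l, ∑ j, ∑ s, ∑ i, (V s).ord (T.J l j - algebraMap k L (a i)) := by
    rw [Finset.mul_sum]
    refine Finset.sum_congr rfl fun l _ => ?_
    rw [Finset.mul_sum]
    refine Finset.sum_congr rfl fun j _ => ?_
    rw [← Finset.mul_sum, Finset.sum_comm]
  have hC : ∑ l, ∑ j, ∑ s, (β s l j - ∑ i, (V s).ord (T.J l j - algebraMap k L (a i))) =
      ∑ l, ∑ j, ∑ s, β s l j -
        ∑ l, ∑ j, ∑ s, ∑ i, (V s).ord (T.J l j - algebraMap k L (a i)) := by
    simp only [Finset.sum_sub_distrib]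
  -- the content
  have hcnt : ∑ i, (c i : ℤ) * P.ord (T.H.eval (algebraMap k K (a i))) =
      (∑ i, (c i : ℤ)) * cnt P T.H + ∑ i, (c i : ℤ) * ct P T.H (a i) := by
    rw [Finset.sum_mul, ← Finset.sum_add_distrib]
    refine Finset.sum_congr rfl fun i _ => ?_
    unfold ct
    ring
  have hC0 : 0 ≤ ∑ i, (c i : ℤ) := Finset.sum_nonneg fun i _ => Int.natCast_nonneg _
  have hcontent : - (h * (∑ i, (c i : ℤ)) *
      ∑ x, ((T.e x * (T.p x).natDegree : ℕ) : ℤ) * SS K W (T.base x)) ≤
      h * g * (e0 * ((∑ i, (c i : ℤ)) * cnt P T.H)) := by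
    have h2 : ∀ x, - (((T.e x * (T.p x).natDegree : ℕ) : ℤ) * SS K W (T.base x)) ≤
        g * (e0 * ((T.e x : ℤ) * cnt P (T.p x))) := by
      intro x
      have h4 := content_ge hWP (T.irr x) (T.mon x) (T.sep x) (T.broot x)
      have h5 : (0 : ℤ) ≤ T.e x := Int.natCast_nonneg _
      have h6 := mul_le_mul_of_nonneg_left h4 h5
      push_cast
      calc -((T.e x : ℤ) * (T.p x).natDegree * SS K W (T.base x)) =
            (T.e x : ℤ) * -(((T.p x).natDegree : ℤ) * SS K W (T.base x)) := by ring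
        _ ≤ _ := h6
        _ = _ := by rw [hg]; ring
    have h3 := Finset.sum_le_sum fun x (_ : x ∈ (Finset.univ : Finset κ)) => h2 x
    rw [Finset.sum_neg_distrib, ← Finset.mul_sum, ← Finset.mul_sum, ← T.cnt_H P] at h3
    have h4 := mul_le_mul_of_nonneg_left h3 (mul_nonneg hh0 hC0)
    calc _ = h * (∑ i, (c i : ℤ)) *
          -(∑ x, ((T.e x * (T.p x).natDegree : ℕ) : ℤ) * SS K W (T.base x)) := by ring
      _ ≤ _ := h4
      _ = _ := by ring
  -- the final inequality
  have hfin : ∑ x, ((T.e x * (T.p x).natDegree : ℕ) : ℤ) * SS K W (T.base x) +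
      h * (∑ i, (c i : ℤ)) * ∑ x, ((T.e x * (T.p x).natDegree : ℕ) : ℤ) * SS K W (T.base x) ≤
      M * ∑ x, ((T.e x * (T.p x).natDegree : ℕ) : ℤ) *
        (((q : ℤ) - 2 * (T.p x).natDegree) * SS K W (T.base x)) := by
    have h1 : ∀ x ∈ (Finset.univ : Finset κ),
        (1 + h * ∑ i, (c i : ℤ)) * (((T.e x * (T.p x).natDegree : ℕ) : ℤ) * SS K W (T.base x)) ≤
        M * (((T.e x * (T.p x).natDegree : ℕ) : ℤ) *
          (((q : ℤ) - 2 * (T.p x).natDegree) * SS K W (T.base x))) := by
      intro x _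
      set Y : ℤ := ((T.e x * (T.p x).natDegree : ℕ) : ℤ) * SS K W (T.base x) with hY
      have hY0 : 0 ≤ Y := mul_nonneg (Int.natCast_nonneg _) (hSS x)
      have h2 := hbz x
      have e1 : (M : ℤ) * (((T.e x * (T.p x).natDegree : ℕ) : ℤ) *
          (((q : ℤ) - 2 * (T.p x).natDegree) * SS K W (T.base x))) =
          (q * M - 2 * (T.p x).natDegree * M) * Y := by
        rw [hY]; ring
      rw [e1]
      exact mul_le_mul_of_nonneg_right (by linarith) hY0
    have h2 := Finset.sum_le_sum h1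
    rw [← Finset.mul_sum, ← Finset.mul_sum] at h2
    linarith
  have hMcov := mul_le_mul_of_nonneg_left (hcov.trans hsum1) (Int.natCast_nonneg M)
  rw [hC] at hMcov
  rw [hA, hB, hcnt, Nat.cast_mul (Fintype.card ι) (Module.finrank K L), ← hh, ← hg]
  generalize (∑ x, ((T.e x * (T.p x).natDegree : ℕ) : ℤ) * SS K W (T.base x)) = X1 at *
  generalize (∑ x, ((T.e x * (T.p x).natDegree : ℕ) : ℤ) *
        (((q : ℤ) - 2 * (T.p x).natDegree) * SS K W (T.base x))) = X2 at *
  generalize (∑ l, ∑ j, ∑ s, β s l j) = X3 at *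
  generalize (∑ l, ∑ j, ∑ s, ∑ i, (V s).ord (T.J l j - algebraMap k L (a i))) = X4 at *
  generalize (∑ l, ∑ s, NE s l) = X5 at *
  generalize (∑ i, (c i : ℤ) * ct P T.H (a i)) = X6 at *
  generalize (∑ i, (c i : ℤ)) = X7 at *
  generalize cnt P T.H = X8 at *
  have e1 : h * g * (↑e0 * (X7 * X8 + X6)) = h * g * (↑e0 * (X7 * X8)) + h * g * (↑e0 * X6) := by
    ring
  rw [e1, mul_sub]
  rw [mul_sub] at hMcov
  linarith

end Pool.Agent.Y190.SC
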