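import Pool.Agent.Y190.SC.Sum
import Pool.Agent.Y190.SC.Disc

/-!
Quasi-projective varieties over the space of polynomials with a condition on the sums of the contact
orders: log general type, Picard, Brody and Lang.
-/

set_option autoImplicit false

open MvPolynomial Metric Filter Topology

namespace Pool.Agent.Y190.SC

open Pool.Agent.W602.Cov Pool.Agent.W602.Cov.Cover Pool.Agent.W602.Cov.R Pool.Agent.W603.BP
open Pool.Agent.W601.PH Pool.Agent.W602.GT Pool.Agent.Y216 Pool.Agent.Y216.LG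
open Pool.Agent.TH152.HY hiding aeval_inr main
open Pool.Agent.Y191 (SemiAbelianOff semi_of_brody lf)

variable {N n q : ℕ}

/-- **The main theorem.** -/
theorem main_sum (hAN : S_AN) {a : Fin q → ℂ} (ha : Function.Injective a) {M : ℕ} {c : Fin q → ℕ}
    (hbound : n * ∑ i, c i + 2 * n * M < q * M) {X D : BiSet N n} (hR : RamifiedSum X D a M c)
    {K : Type} [Field K] [Algebra ℂ K] {x : Fin (N + 1) → K} {y : Fin (n + 1) → K}
    (hK : X.FunctionField K x y) (hD : ¬ D.Mem x y)
    (halg : Algebra.IsAlgebraic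
      (IntermediateField.adjoin ℂ {f : K | ∃ i j, y j ≠ 0 ∧ f = y i / y j}) K)
    (h0 : ∀ i, lf (fun l : Fin (n + 1) => a i ^ (l : ℕ)) y ≠ 0) :
    ∃ (G : BiPoly N n) (E : ℕ), BiHom G 0 E ∧ aeval (Sum.elim x y) G ≠ 0 ∧
      (∃ u v, QMem X D u v ∧ eval (Sum.elim u v) G ≠ 0) ∧
      PicardOff X D G ∧ BrodyOff X D G ∧ SemiAbelianOff X D G ∧ LangOff X D G := by
  classical
  choose Dg mm e hrel using fun i j => exists_rel hK halg i j
  let Q0 : MvPolynomial (Fin (n + 1)) ℂ :=
    ∏ i : Fin (N + 1), ∏ j : Fin (N + 1), e i j (mm i j)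
  let Q : MvPolynomial (Fin (n + 1)) ℂ := Q0 * ∏ i : Fin q, lfP n (a i)
  obtain ⟨E, hQh⟩ : ∃ E, Q.IsHomogeneous E :=
    ⟨_, (IsHomogeneous.prod _ _ _ fun i _ => IsHomogeneous.prod _ _ _ fun j _ =>
      (hrel i j).1.hom _ le_rfl).mul (IsHomogeneous.prod _ _ _ fun i _ => hom_lfP n (a i))⟩
  have hsplit : ∀ {L : Type} [Field L] [Algebra ℂ L] (y' : Fin (n + 1) → L), aeval y' Q ≠ 0 →
      (∀ i j, aeval y' (e i j (mm i j)) ≠ 0) ∧ ∀ i, aeval y' (lfP n (a i)) ≠ 0 := by
    intro L _ _ y' hy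
    simp only [Q, Q0, map_mul, map_prod] at hy
    refine ⟨fun i j h0 => hy ?_, fun i h0 => hy ?_⟩
    · rw [Finset.prod_eq_zero (Finset.mem_univ i) (Finset.prod_eq_zero (Finset.mem_univ j) h0),
        zero_mul]
    · rw [Finset.prod_eq_zero (f := fun i => aeval y' (lfP n (a i))) (Finset.mem_univ i) h0,
        mul_zero]
  have hyQ : aeval y Q ≠ 0 := by
    simp only [Q, Q0, map_mul, map_prod]
    refine mul_ne_zero (Finset.prod_ne_zero_iff.mpr fun i _ =>
      Finset.prod_ne_zero_iff.mpr fun j _ => (hrel i j).2) (Finset.prod_ne_zero_iff.mpr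
        fun i _ => ?_)
    rw [aeval_lfP]
    exact h0 i
  have hinr : ∀ {L : Type} [Field L] [Algebra ℂ L] (x' : Fin (N + 1) → L) (y' : Fin (n + 1) → L),
      aeval (Sum.elim x' y') (rename Sum.inr Q : BiPoly N n) = aeval y' Q := by
    intro L _ _ x' y'
    rw [aeval_rename]
    rfl
  have hLang : LangOff X D (rename Sum.inr Q) := by
    intro L _ _ x' y' w hmem _ hne hgen htr hw
    rw [hinr] at hne
    obtain ⟨h1, h2⟩ := hsplit y' hne
    have h3 := alg_sub (fun i j => (hrel i j).1) hmem h1 hgen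
    have h4 : Algebra.IsAlgebraic (Algebra.adjoin ℂ {z | ∃ i j, z = (pol y').coeff i /
        (pol y').coeff j}) L := by
      rw [← IntermediateField.isAlgebraic_adjoin_iff_top]
      refine Pool.Agent.TH152.HY.alg_mono ?_ h3
      rw [IntermediateField.adjoin_le_iff]
      rintro _ ⟨i, j, hj, rfl⟩
      exact IntermediateField.subset_adjoin ℂ _ ⟨(i : ℕ), (j : ℕ), by
        rw [coeff_pol, coeff_pol]⟩
    have h5 : ∀ i, (pol y').eval (algebraMap ℂ L (a i)) ≠ 0 := by
      intro i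
      have := h2 i
      rw [aeval_lfP] at this
      rw [eval_pol_eq]
      exact this
    exact core_sum hw htr a ha hbound (pol y') (pol_ne hmem.2.1) (natDegree_pol_le y') h4 h5 _
      fun P _ hP => hR.sumC hmem h5 hP
  have hPic : PicardOff X D (rename Sum.inr Q) := by
    rintro u v huv ⟨z0, hz0, hne⟩
    have hu := fun j => an_of_diffOn huv.diffu j
    have hmem : ∀ z ∈ PB 1, QMem X D (u z) (v z) := fun z hz => huv.mem z (mem_disc.mpr hz)
    have hne' : aeval (v z0) Q ≠ 0 := by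
      rw [← hinr (u z0) (v z0)]
      exact hne
    obtain ⟨h1, h2⟩ := hsplit (v z0) hne'
    have hE : Extends v := disc_extends hAN ha hbound hR huv (mem_disc.mp hz0) fun i => h2 i
    exact ⟨extends_lift (X := conv X) hu (fun z hz => (hmem z hz).1) hE (mem_disc.mp hz0)
      (fib_finite (fun i j => (hrel i j).1) h1), hE⟩
  refine ⟨rename Sum.inr Q, E, biHom_rename hQh, by rw [hinr]; exact hyQ, ?_, hPic,
    brody_of_picard hPic, semi_of_brody (brody_of_picard hPic), hLang⟩
  have h1 : ∃ F ∈ D.eqs, aeval (Sum.elim x y) F ≠ 0 := by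
    by_contra hcon
    push Not at hcon
    exact hD ⟨hK.mem.1, hK.mem.2.1, hcon⟩
  obtain ⟨F, hF, hFab⟩ := h1
  obtain ⟨e, e', he⟩ := D.hom F hF
  have h2 : BiHom (F * rename Sum.inr Q : BiPoly N n) (e + 0) (e' + E) := by
    have := IsWeightedHomogeneous.mul he (biHom_rename (N := N) hQh)
    exact this
  by_contra hcon
  push Not at hcon
  have h3 := (hK.van _ _ _ h2).2 (fun u v huv => by
    rw [map_mul]
    by_cases hFv : eval (Sum.elim u v) F = 0
    · rw [hFv, zero_mul]
    · rw [hcon u v ⟨huv, fun hd => hFv (hd.2.2 F hF)⟩, mul_zero])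
  rw [map_mul, hinr] at h3
  exact mul_ne_zero hFab hyQ h3

end Pool.Agent.Y190.SC
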