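import Pool.Agent.Y190.SC.Core

/-!
Function fields with a polynomial whose contact orders with constants satisfy a condition on their
sums are of log general type.
-/

set_option autoImplicit false

open FF Pool.Agent.W603.LV Pool.Agent.W602.GT Polynomial

namespace Pool.Agent.Y190.SC

open Pool.Agent.Y190.BV

variable {k K : Type} [Field k] [Field K] [Algebra k K]

/-- **Log general type.** -/
theorem core_sum [IsAlgClosed k] [CharZero k] {w : ℕ} (hw : 1 ≤ w)
    (htr : Algebra.trdeg k K = w) {n q : ℕ}
    (a : Fin q → k) (ha : Function.Injective a) {M : ℕ} {c : Fin q → ℕ}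
    (hbound : n * ∑ i, c i + 2 * n * M < q * M) (H : K[X]) (hH : H ≠ 0)
    (hdeg : H.natDegree ≤ n)
    (halg : Algebra.IsAlgebraic (Algebra.adjoin k {x | ∃ i j, x = H.coeff i / H.coeff j}) K)
    (h0 : ∀ i, H.eval (algebraMap k K (a i)) ≠ 0)
    (Bd : Place k K → Prop)
    (hram : ∀ P : Place k K, Divisorial w P → ¬ Bd P → SumC M c a H P) :
    LogGeneralType k K w Bd := by
  classical
  have hchK : CharZero K := charZero_of_injective_algebraMap (algebraMap k K).injective
  have hinf : Infinite k := inferInstance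
  obtain ⟨T, e, u, hu, hT, hHT, hTall⟩ := factor hH
  set T1 : Finset K[X] := T.filter (fun p => ∀ c : k, p.eval (algebraMap k K c) ≠ 0) with hT1
  have hT1T : ∀ p ∈ T1, p ∈ T := fun p hp => (Finset.mem_filter.1 hp).1
  have hT1c : ∀ p ∈ T1, ∀ c : k, p.eval (algebraMap k K c) ≠ 0 := fun p hp =>
    (Finset.mem_filter.1 hp).2
  have hT2 : ∀ p ∈ T, p ∉ T1 → ∃ c : k, p.eval (algebraMap k K c) = 0 := by
    intro p hp hp1
    by_contra hcon
    push Not at hcon
    exact hp1 (Finset.mem_filter.2 ⟨hp, hcon⟩)
  -- the Galois extension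
  let Q : K[X] := ∏ p ∈ T, p
  have hqsep : Q.Separable := by
    refine Polynomial.separable_prod' ?_ ?_
    · intro p hp r hr hpr
      exact coprime_of_ne (hT p hp).1 (hT r hr).1 (hT p hp).2.1 (hT r hr).2.1 hpr
    · intro p hp
      exact (hT p hp).1.separable
  let L := Q.SplittingField
  have hgal : IsGalois K L := IsGalois.of_separable_splitting_field hqsep
  have hqs : (Q.map (algebraMap K L)).Splits := Polynomial.SplittingField.splits Q
  have hps : ∀ p ∈ T, (p.map (algebraMap K L)).Splits := by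
    intro p hp
    exact hqs.of_dvd (Polynomial.map_ne_zero hqsep.ne_zero)
      (Polynomial.map_dvd _ (Finset.dvd_prod_of_mem _ hp))
  have hHs : (H.map (algebraMap K L)).Splits := by
    rw [hHT, Polynomial.map_mul, Polynomial.map_C, Polynomial.map_prod]
    refine (Polynomial.Splits.C _).mul (Polynomial.Splits.prod fun p hp => ?_)
    rw [Polynomial.map_pow]
    exact (hps p hp).pow _
  let S : Set L := {t | ∃ p ∈ T1, aeval t p = 0}
  have hS : Algebra.IsAlgebraic (Algebra.adjoin k S) L := by
    refine alg_of_roots H hH hHs halg _ fun t ht => ?_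
    rw [hHT, map_mul, aeval_C, map_prod] at ht
    have h1 := (mul_eq_zero.1 ht).resolve_left ((_root_.map_ne_zero _).2 hu)
    obtain ⟨p, hp, hp2⟩ := Finset.prod_eq_zero_iff.1 h1
    rw [map_pow] at hp2
    have hp3 := eq_zero_of_pow_eq_zero hp2
    by_cases hp1 : p ∈ T1
    · exact IntermediateField.subset_adjoin k _ ⟨p, hp1, hp3⟩
    · obtain ⟨i, hi⟩ := hT2 p hp hp1
      rw [eq_X_sub_C (hT p hp).1 (hT p hp).2.1 hi, map_sub, aeval_X, aeval_C, sub_eq_zero] at hp3
      rw [hp3, ← IsScalarTower.algebraMap_apply]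
      exact IntermediateField.algebraMap_mem _ _
  have htrL : Algebra.trdeg k L = w := by rw [trdeg_ext (K := K), htr]
  -- roots
  have hroot : ∀ x : T1, ∃ t : L, aeval t x.1 = 0 := by
    intro x
    obtain ⟨t, ht⟩ := (hps x.1 (hT1T _ x.2)).exists_eval_eq_zero (by
      rw [Polynomial.degree_map]
      exact (Polynomial.degree_pos_of_irreducible (hT _ (hT1T _ x.2)).1).ne')
    refine ⟨t, ?_⟩
    rwa [Polynomial.eval_map_algebraMap] at ht
  choose base hbase using hroot
  have htrans : ∀ x, Transcendental k (base x) := by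
    intro x h1
    obtain ⟨y, hy⟩ := const_of_algebraic h1
    have h2 := hbase x
    rw [hy, IsScalarTower.algebraMap_apply k K L, aeval_algebraMap_apply, map_eq_zero,
      coe_aeval_eq_eval] at h2
    exact hT1c x.1 x.2 y h2
  let ι : Type := Σ x : T1, Fin (e x.1 * x.1.natDegree)
  have hJ : ∀ l : ι, ∃ y : Fin w → L, IsTranscendenceBasis k y ∧ (∀ j, y j ∈ S) ∧
      ∃ j, y j = base l.1 := fun l =>
    exists_basis_through htrL S hS ⟨l.1.1, l.1.2, hbase l.1⟩ (htrans l.1)
  choose J hJb hJS j0 hj0 using hJ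
  have hc : ∀ l j, ∃ x : T1, aeval (J l j) x.1 = 0 := by
    intro l j
    obtain ⟨p, hp, hp2⟩ := hJS l j
    exact ⟨⟨p, hp⟩, hp2⟩
  choose cc hcc using hc
  have hcj0 : ∀ l, cc l (j0 l) = l.1 := by
    intro l
    have h1 : (cc l (j0 l)).1 = minpoly K (base l.1) := by
      rw [← hj0 l]
      exact minpoly.eq_of_irreducible_of_monic (hT _ (hT1T _ (cc l (j0 l)).2)).1 (hcc l (j0 l))
        (hT _ (hT1T _ (cc l (j0 l)).2)).2.1
    have h2 : l.1.1 = minpoly K (base l.1) :=
      minpoly.eq_of_irreducible_of_monic (hT _ (hT1T _ l.1.2)).1 (hbase l.1)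
        (hT _ (hT1T _ l.1.2)).2.1
    exact Subtype.ext (h1.trans h2.symm)
  let F : Fam K L T1 ι w :=
    { p := fun x => x.1
      irr := fun x => (hT _ (hT1T _ x.2)).1
      mon := fun x => (hT _ (hT1T _ x.2)).2.1
      sep := fun x => (hT _ (hT1T _ x.2)).1.separable
      e := fun x => e x.1
      pos := fun x => (hT _ (hT1T _ x.2)).2.2.2.1
      J := J
      c := cc
      root := hcc
      base := base
      broot := hbase
      cover := by
        intro G hG
        have h1 : ∀ l : ι, G l.1 ≤ ∑ j, G (cc l j) := by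
          intro l
          have h2 := Finset.single_le_sum (f := fun j => G (cc l j)) (fun j _ => hG _)
            (Finset.mem_univ (j0 l))
          simp only [hcj0] at h2
          exact h2
        have h2 := Finset.sum_le_sum fun l (_ : l ∈ (Finset.univ : Finset ι)) => h1 l
        refine le_trans (le_of_eq ?_) h2
        rw [Fintype.sum_sigma]
        refine Finset.sum_congr rfl fun x _ => ?_
        change _ = ∑ _y : Fin (e x.1 * x.1.natDegree), G x
        rw [Finset.sum_const, Finset.card_univ, Fintype.card_fin, nsmul_eq_mul] }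
  have hF : F.H = ∏ p ∈ T1, p ^ e p := by
    unfold Fam.H
    exact Finset.prod_coe_sort T1 (fun p => p ^ e p)
  have hdvd : (∏ p ∈ T1, p ^ e p) ∣ H := by
    rw [hHT]
    refine Dvd.dvd.mul_left ?_ _
    exact Finset.prod_dvd_prod_of_subset _ _ _ hT1T
  have hcard : Fintype.card ι ≤ n := by
    rw [Fintype.card_sigma]
    have h1 : (∏ p ∈ T1, p ^ e p).natDegree = ∑ p ∈ T1, e p * p.natDegree := by
      rw [Polynomial.natDegree_prod _ _ fun p hp => pow_ne_zero _ (hT p (hT1T p hp)).1.ne_zero]
      exact Finset.sum_congr rfl fun p _ => Polynomial.natDegree_pow _ _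
    have h2 : ∑ x : T1, Fintype.card (Fin (e x.1 * x.1.natDegree)) =
        ∑ p ∈ T1, e p * p.natDegree := by
      rw [← Finset.sum_coe_sort T1 (fun p => e p * p.natDegree)]
      exact Finset.sum_congr rfl fun x _ => Fintype.card_fin _
    rw [h2, ← h1]
    exact (Polynomial.natDegree_le_of_dvd hdvd hH).trans hdeg
  have hdegp : ∀ x : T1, x.1.natDegree ≤ n := fun x =>
    (Polynomial.natDegree_le_of_dvd (hT _ (hT1T _ x.2)).2.2.1 hH).trans hdeg
  have hM : 0 < M := by
    rcases Nat.eq_zero_or_pos M with h | h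
    · rw [h, mul_zero, mul_zero] at hbound
      omega
    · exact h
  have hne : Nonempty ι := by
    by_contra hcon
    rw [not_nonempty_iff] at hcon
    have hT1e : ∀ p ∈ T1, False := by
      intro p hp
      have h1 : 0 < e p * p.natDegree :=
        Nat.mul_pos (hT p (hT1T p hp)).2.2.2.1 (hT p (hT1T p hp)).1.natDegree_pos
      exact hcon.false ⟨⟨p, hp⟩, ⟨0, h1⟩⟩
    obtain ⟨x, _, hx⟩ := exists_basis_in htrL S hS
    obtain ⟨p, hp, _⟩ := hx ⟨0, hw⟩
    exact hT1e p hp
  have h0' : ∀ (x : T1) (i : Fin q), x.1.eval (algebraMap k K (a i)) ≠ 0 := fun x i =>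
    hT1c x.1 x.2 (a i)
  refine F.gt (c := c) htr hJb a ha hM h0' ?_ Bd ?_
  · intro x
    have h1 : Fintype.card ι * ∑ i, c i ≤ n * ∑ i, c i := Nat.mul_le_mul_right _ hcard
    have h2 : 2 * x.1.natDegree * M ≤ 2 * n * M :=
      Nat.mul_le_mul_right _ (Nat.mul_le_mul_left _ (hdegp x))
    change Fintype.card ι * ∑ i, c i + 2 * x.1.natDegree * M < q * M
    omega
  · intro P hP hBd
    have hct : ∀ i, ct P F.H (a i) = ct P H (a i) := by
      intro i
      have hi := h0 i
      have hpe : ∀ p ∈ T, p.eval (algebraMap k K (a i)) ≠ 0 := by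
        intro p hp h0
        apply hi
        obtain ⟨r, hr⟩ := (hT p hp).2.2.1
        rw [hr, Polynomial.eval_mul, h0, zero_mul]
      have h2 : ct P H (a i) = ∑ p ∈ T, (e p : ℤ) * ct P p (a i) := by
        have hprod : (∏ p ∈ T, p ^ e p).eval (algebraMap k K (a i)) ≠ 0 := by
          rw [Polynomial.eval_prod]
          refine Finset.prod_ne_zero_iff.2 fun p hp => ?_
          rw [Polynomial.eval_pow]
          exact pow_ne_zero _ (hpe p hp)
        rw [hHT, ct_mul P (by rw [Polynomial.eval_C]; exact hu) hprod, ct_C P hu, zero_add,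
          ct_prod P T _ fun p hp => by
            rw [Polynomial.eval_pow]
            exact pow_ne_zero _ (hpe p hp)]
        exact Finset.sum_congr rfl fun p hp => ct_pow P (hpe p hp) _
      have h4 : ct P H (a i) = ∑ p ∈ T1, (e p : ℤ) * ct P p (a i) := by
        rw [h2]
        symm
        refine Finset.sum_subset (Finset.filter_subset _ _) fun p hp hp1 => ?_
        obtain ⟨c, hc⟩ := hT2 p hp hp1
        have hpX := eq_X_sub_C (hT p hp).1 (hT p hp).2.1 hc
        have hij : a i ≠ c := by
          intro h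
          apply hpe p hp
          rw [h]; exact hc
        rw [hpX, ct_X_sub_C P hij, mul_zero]
      rw [h4, F.ct_H P fun x => h0' x i]
      exact Finset.sum_coe_sort T1 (fun p => (e p : ℤ) * ct P p (a i))
    rcases hram P hP hBd with h1 | h1
    · left
      intro i
      rw [hct, h1 i]
    · right
      simp only [hct]
      exact h1

end Pool.Agent.Y190.SC
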